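import Pool.Agent.H83.V.ErgV
import Pool.Agent.H83.V.FinV
import Pool.Agent.H55.V.MB
import Pool.Agent.H94.V.Y3
import Pool.Agent.H4.V.W6
import Pool.Agent.H54.V.ENV
import Pool.Agent.H63.V.GDL
import Pool.Agent.H67.V.VWN
import Pool.Agent.H6.V.VBL
import Pool.Agent.H77.V.VLB
import Pool.Agent.H35.V.VSX
import Pool.Agent.H21.V.VFX
import Pool.Agent.H14.V.VER
import Pool.Agent.H89.V.NPV
import Pool.Agent.H79.V.RSQ
import Pool.Agent.H5.V.SUP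
import Pool.Agent.H75.V.VCO
import Pool.Agent.H19.V.WBV
import Pool.Agent.H68.V.MBV
import Pool.Agent.H68.V.RLV
import Pool.Agent.H7.V.VXY
import Pool.Agent.H61.V.FZV
import Pool.Agent.H28.MCL.All
import Pool.Agent.H14.LF.THV
import Pool.Agent.H67.LF.SHP
import Pool.Agent.H34.LF.YEX
import Pool.Agent.H1.LF.YLW
import Pool.Agent.H88.LF.YRL
import Pool.Agent.H38.LF.YST
import Pool.Agent.H57.LF.YSQ
import Pool.Agent.H49.LF.YMR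
import Pool.Agent.H40.LF.CMP
import Pool.Agent.H40.LF.SDM
import Pool.Agent.H40.LF.SDN
import Pool.Agent.H40.LF.SEB
import Pool.Agent.H85.LF.DCN
import Pool.Agent.H54.LF.SEL
import Pool.Agent.H50.AG.MRC
import Pool.Agent.H79.LF.DVS
import Pool.Agent.H84.LF.TPL

/-!
Theorem V, closed.
-/

set_option autoImplicit false

namespace Pool.Agent.H83.V

open Pool.Agent.H67.AG.AllF

theorem v_LDB : Pool.Agent.H28.MCL.T_LDB := Pool.Agent.H14.MCL.ldb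
theorem v_LDC : Pool.Agent.H28.MCL.T_LDC := Pool.Agent.H14.MCL.ldc
theorem v_LDM : Pool.Agent.H28.MCL.T_LDM := Pool.Agent.H48.MCL.ldm v_LDC

theorem v_MB : T_MB := Pool.Agent.H55.V.pf_MB v_BK
theorem v_Y3 : T_Y3 := Pool.Agent.H94.V.pf_Y3 v_PGV v_Y2
theorem v_W6 : T_W6 := Pool.Agent.H4.V.pf_W6 v_MB v_NUM
theorem v_ENV : T_ENV := Pool.Agent.H54.V.pf_ENV v_MB v_NUM (v_GAP v_MB) c_JT

/-- there are no data -/
theorem noVx : IsEmpty Vx := vx_empty v_MB v_Y3 v_W6 v_ENV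

theorem v_THV : Pool.Agent.H28.LF.T_THV := Pool.Agent.H14.LF.pf_THV
theorem v_SHP : Pool.Agent.H28.LF.T_SHP :=
  Pool.Agent.H67.LF.pf_SHP Pool.Agent.H24.UG.AllU.u_UNU
theorem v_YEX : Pool.Agent.H28.LF.T_YEX := Pool.Agent.H34.LF.pf_YEX v_SHP v_LDB
theorem v_YLW : Pool.Agent.H28.LF.T_YLW := Pool.Agent.H1.LF.pf_YLW v_LDB
theorem v_YRL : Pool.Agent.H28.LF.T_YRL := Pool.Agent.H88.LF.pf_YRL
theorem v_YST : Pool.Agent.H28.LF.T_YST := Pool.Agent.H38.LF.pf_YST v_LDB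
theorem v_YSQ : Pool.Agent.H28.LF.T_YSQ := Pool.Agent.H57.LF.pf_YSQ v_LDB v_LDC
theorem v_YMR : Pool.Agent.H28.LF.T_YMR := Pool.Agent.H49.LF.pf_YMR v_LDB v_LDM
theorem v_CMP : Pool.Agent.H28.LF.T_CMP := Pool.Agent.H40.LF.pf_CMP Pool.Agent.H50.AG.pf_MRC
theorem v_DCC : Pool.Agent.H28.LF.T_DCC := Pool.Agent.H85.LF.pf_DCC c_ME
theorem v_SEL : Pool.Agent.H28.LF.T_SEL := Pool.Agent.H54.LF.pf_SEL v_DCC
  Pool.Agent.H40.LF.pf_SDM Pool.Agent.H40.LF.pf_SDN Pool.Agent.H40.LF.pf_SEB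
theorem v_DVS : Pool.Agent.H28.LF.T_DVS := Pool.Agent.H79.LF.pf_DVS
theorem v_TPL : Pool.Agent.H28.LF.T_TPL := Pool.Agent.H84.LF.pf_TPL

theorem v_GDL : T_GDL := Pool.Agent.H63.V.pf_GDL
theorem v_VWN : T_VWN := Pool.Agent.H67.V.pf_VWN
theorem v_VBL : T_VBL := Pool.Agent.H6.V.pf_VBL v_GDL
theorem v_VLB : T_VLB := Pool.Agent.H77.V.pf_VLB v_VWN v_VBL v_LDB
theorem v_VSX : T_VSX := Pool.Agent.H35.V.pf_VSX v_SHP v_GDL v_LDB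
theorem v_VFX : T_VFX := Pool.Agent.H21.V.pf_VFX v_BK v_GDL
theorem v_VER : T_VER := Pool.Agent.H14.V.pf_VER v_DVS v_TPL v_GDL
theorem v_LBV : T_LBV := Pool.Agent.H14.V.pf_LBV
theorem v_NPV : T_NPV := Pool.Agent.H89.V.pf_NPV v_DVS c_ME
theorem v_RSQ : T_RSQ := Pool.Agent.H79.V.pf_RSQ
theorem v_SUP : T_SUP := Pool.Agent.H5.V.pf_SUP v_DVS
theorem v_VCO : T_VCO := Pool.Agent.H75.V.pf_VCO v_GDL
theorem v_WBV : T_WBV := Pool.Agent.H19.V.pf_WBV v_RSQ v_SUP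
theorem v_MBV : T_MBV := Pool.Agent.H68.V.pf_MBV
theorem v_RLV : T_RLV := Pool.Agent.H68.V.pf_RLV v_WBV v_MBV
theorem v_VXY : T_VXY := Pool.Agent.H7.V.pf_VXY v_RLV v_VCO v_NPV v_RSQ c_UL
theorem v_FZV : T_FZV := Pool.Agent.H61.V.pf_FZV

/-- **Theorem V** -/
theorem thmV (z : Bool) (m : ℕ) (I : Finset (Fin m)) (ρ : ℝ) (hm : 2 ≤ m)
    (hI : m ≤ 2 * I.card) (hρ : 0 < ρ) : ThmV z m I ρ :=
  thmV_of v_VLB v_VSX v_VFX v_YEX v_YLW v_YRL v_YST v_YSQ v_YMR v_CMP v_SEL v_VER v_LBV v_VXY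
    noVx z m I ρ hm hI hρ

end Pool.Agent.H83.V
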