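import Pool.Agent.H83.V.TW
import Pool.Agent.H28.LF.FIN

/-!
Theorem W: from the targets to the statement.
-/

set_option autoImplicit false

open MeasureTheory ProbabilityTheory Filter Topology Finset
open scoped Nat ENNReal

namespace Pool.Agent.H83.V

open Pool.Agent.H24.T2 (Pset)
open Pool.Agent.H28.MCL (ldB Aw)
open Pool.Agent.H67.AG (avgP ul Inv Rt Av)
open Pool.Agent.H28.LF (Wd La Cd dm ds lt ng SS ptS LX Xi LY Yi shX shY lX lY btY flY xiY SysX SysY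
  CompY LwY ExY Wa DcO sY GoodC)

/-- the measure on the `y`-side, with its law -/
theorem syw_of (hE : Pool.Agent.H28.LF.T_YEX) (hW : Pool.Agent.H28.LF.T_YLW)
    (hR : Pool.Agent.H28.LF.T_YRL) (hS : Pool.Agent.H28.LF.T_YST) (hQ : Pool.Agent.H28.LF.T_YSQ)
    (hM : Pool.Agent.H28.LF.T_YMR) (U : Ultrafilter ℕ) (x y : ℕ → ℕ) (τ : ℕ → ℕ → Bool)
    (PX : Measure Xi) (hA : Aw U x y) (hP : IsProbabilityMeasure PX)
    (hC : ∀ C : Set Xi, IsClopen C → PX.real C = ldB U x y {n | ptS (lX τ) n ∈ C}) :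
    ∃ P : Measure Yi, LwY U x y τ P ∧ SysY PX P := by
  obtain ⟨P, hL⟩ := hE U x y τ hA
  refine ⟨P, hL, ?_⟩
  have h1 := hW U x y τ PX P hA hP hC hL
  have h2 := hS U x y τ P hA hL
  exact
    { prob := hL.prob
      inv := hL.inv
      law := fun p hp => (h1 p hp).1
      div := fun p hp => (h1 p hp).2
      rel := hR U x y τ P hA hL
      stp := h2.1
      stf := h2.2.1
      per := h2.2.2
      sqf := hQ U x y τ P hA hL
      mr := hM U x y τ P hA hL }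

/-- Theorem W from the targets -/
theorem thmW_of (hL : T_WLB) (hX : T_VSX) (hYB : T_WYB) (hF : T_WFX) (hSE : T_WSE)
    (hLD : Pool.Agent.H28.MCL.T_LDB) (hE : Pool.Agent.H28.LF.T_YEX)
    (hW : Pool.Agent.H28.LF.T_YLW) (hR : Pool.Agent.H28.LF.T_YRL) (hS : Pool.Agent.H28.LF.T_YST)
    (hQ : Pool.Agent.H28.LF.T_YSQ) (hM : Pool.Agent.H28.LF.T_YMR) (hC : Pool.Agent.H28.LF.T_CMP)
    (hER : T_VER) (hLB : T_LBV) (hXY : T_VXY)
    (hX0 : IsEmpty Vx) (z : Bool) (m : ℕ) (I : Finset (Fin m)) (θ ρ : ℝ) (hm : 2 ≤ m)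
    (hI : m ≤ 2 * I.card) (hθ : 0 < θ) (hρ : 0 < ρ) : ThmW z m I θ ρ := by
  classical
  by_contra hcon
  obtain ⟨U, x, y, τ, δ, hδ, hA, hτ, hbig⟩ := hL z m I θ ρ hθ hρ hcon
  -- the measure on the `n`-side (the last condition of `T_VSX` is empty for `ρ = 0`)
  obtain ⟨PX, hPX, hcl, -⟩ := hX z m I 0 1 U x y τ hA hτ (fun K _ => (hLD U x y hA).1.nonneg _)
  have hpX := hPX.prob
  have hη : 0 < 2 * (θ ^ 4 / 10 ^ 19) := by positivity
  obtain ⟨P, hPl, hP⟩ := syw_of hE hW hR hS hQ hM U x y τ PX hA hpX hcl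
  have hpP := hP.prob
  obtain ⟨F, hFm, hFi, hFe, hFb⟩ := hF z m I (θ / 128) (2 * (θ ^ 4 / 10 ^ 19)) δ PX P hpX
    hPX.inv hP hη (fun K k hK hk => hYB z m I _ _ δ U x y τ P hA hPl K k hK (hbig K k hK hk))
  obtain ⟨κ, hκ, hdis, hcomp⟩ := hC (fun _ => 1) 0 PX P hPX hP
  obtain ⟨ω, h1, h3⟩ := hSE PX P F κ (θ / 128) δ hpX hP hFm hFi (by positivity) hδ hFb hdis hcomp
    {ω | CompY (κ ω)} hcomp
  have h1' : CompY (κ ω) := h1
  have hlb := hLB (κ ω) h1'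
  have hlb' : ∃ lb : ℕ → ℕ → Bool, ∀ p : ℕ, p.Prime → ∀ᵐ ω' ∂(κ ω), (xiY p ω' 0).2 = lb p := by
    choose! lb hlb using hlb
    exact ⟨lb, hlb⟩
  obtain ⟨lb, hlb⟩ := hlb'
  obtain ⟨w, hw⟩ := exists_nat_gt ((m : ℝ) * (10 ^ 19 / θ ^ 4))
  have hm0 : (0 : ℝ) < m := by exact_mod_cast (by omega : 0 < m)
  have hθ4 : 0 < θ ^ 4 := by positivity
  have hw0 : (0 : ℝ) < w := lt_trans (by positivity) hw
  have hw1 : 0 < w := by exact_mod_cast hw0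
  have hw2 : (m : ℝ) / w ≤ θ ^ 4 / 10 ^ 19 := by
    rw [div_le_div_iff₀ hw0 (by positivity)]
    have h5 : (m : ℝ) * (10 ^ 19 / θ ^ 4) * θ ^ 4 = m * 10 ^ 19 := by
      field_simp
    have h6 := mul_le_mul_of_nonneg_right hw.le hθ4.le
    rw [h5] at h6
    linarith
  have h4 := hXY z m I w lb (2 * (θ / 128)) (3 / 2 * (2 * (θ ^ 4 / 10 ^ 19))) F (fun _ => ∅) (κ ω)
    hm hI hw1 (by positivity) (by positivity) (by
      have e : (2 * (θ / 128) / 2) ^ 4 / 10 ^ 9 = θ ^ 4 * (1 / (268435456 * 10 ^ 9)) := by ring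
      rw [e]
      have e2 : 10 * (3 / 2 * (2 * (θ ^ 4 / 10 ^ 19))) + θ ^ 4 / 10 ^ 19 =
        θ ^ 4 * (31 / 10 ^ 19) := by ring
      have h6 : θ ^ 4 * (31 / 10 ^ 19) < θ ^ 4 * (1 / (268435456 * 10 ^ 9)) := by
        apply mul_lt_mul_of_pos_left _ hθ4
        norm_num
      linarith) h1' hFm hlb
    (hER z m I (3 / 2 * (2 * (θ ^ 4 / 10 ^ 19))) F (κ ω) h1' hFm hFe) h3
  exact h4.elim fun d => hX0.false d

end Pool.Agent.H83.V
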