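import Pool.Agent.H83.V.Cov

/-!
Theorem W for arbitrary sets of places: a code for short words gives a code for long words.
-/

set_option autoImplicit false

open Finset

namespace Pool.Agent.H83.V.Cov

/-- a code for the places `I` of short words gives a code for half of the places of long words -/
theorem gn_long (m : ℕ) (I : Finset (Fin m)) (hI : I.Nonempty) :
    ∃ I' : Finset (Fin (10 * m)), 10 * m ≤ 2 * #I' ∧ ∀ η : ℝ, 0 < η → ∃ H₁ : ℕ, ∀ H, H₁ ≤ H →
      ∀ (z : Bool) (n : ℕ), Gn z m I (η * #I / (100 * m)) H n → Gn z (10 * m) I' η H n := by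
  classical
  have h0 : 0 < m := by
    obtain ⟨i, _⟩ := hI
    exact lt_of_le_of_lt (Nat.zero_le _) i.2
  set J : Finset ℕ := I.map Fin.valEmbedding with hJ
  have hJr : J ⊆ range m := by
    intro j hj
    rw [hJ, mem_map] at hj
    obtain ⟨i, _, rfl⟩ := hj
    exact mem_range.2 i.2
  have hJc : #J = #I := card_map _
  have hI0 : 0 < #I := hI.card_pos
  obtain ⟨S, hS, hSc, hcv⟩ := cover m J hJr h0 (by omega)
  set I' : Finset (Fin (10 * m)) := univ.filter fun j => (j : ℕ) ∈ cv m J S with hI'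
  have hI'c : #(cv m J S) ≤ #I' := by
    have h1 : cv m J S ⊆ I'.map Fin.valEmbedding := by
      intro j hj
      have hj' := hj
      unfold cv at hj'
      rw [mem_filter, mem_Ico] at hj'
      rw [mem_map]
      refine ⟨⟨j, by omega⟩, ?_, rfl⟩
      rw [hI', mem_filter]
      exact ⟨mem_univ _, hj⟩
    have h2 := card_le_card h1
    rwa [card_map] at h2
  refine ⟨I', by omega, fun η hη => ?_⟩
  obtain ⟨H₁, hH₁⟩ := exists_nat_ge ((144 * (m : ℝ) ^ 2) / (η * (84 / 100)))
  refine ⟨H₁, fun H hH z n hGn => ?_⟩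
  obtain ⟨G, hG, hcount⟩ := hGn
  refine ⟨{V | ∀ s ∈ S, sub m V s ∈ G}, ?_, ?_⟩
  · -- the code
    intro v hv w hw j hj h1 h2
    rw [hI', mem_filter] at hj
    have hj' := hj.2
    unfold cv at hj'
    rw [mem_filter] at hj'
    obtain ⟨h3, s, hs, i, hi, he⟩ := hj'
    rw [hJ, mem_map] at hi
    obtain ⟨i, hi, rfl⟩ := hi
    have he' : (j : ℕ) = s + (i : ℕ) := he
    have hij : ∀ V : Fin (10 * m) → ℤ, sub m V s i = V j := by
      intro V
      unfold sub
      rw [dif_pos (by have := j.2; omega)]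
      congr 1
      exact Fin.ext he'.symm
    obtain ⟨i', hi', hne⟩ := hG _ (hv s hs) _ (hw s hs) i hi (by rw [hij]; exact h1)
      (by rw [hij, hij]; exact h2)
    have hs9 := mem_range.1 (hS hs)
    have hlt : s + (i' : ℕ) < 10 * m := by have := i'.2; omega
    refine ⟨⟨s + i', hlt⟩, ?_, ?_⟩
    · intro hcon
      apply hi'
      have h4 := congrArg Fin.val hcon
      simp only at h4
      exact Fin.ext (by omega)
    · unfold sub at hne
      rw [dif_pos hlt, dif_pos hlt] at hne
      exact hne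
  · -- the number of errors
    have h1 : #{h ∈ range H | pat z (10 * m) (n + h) ∉ {V | ∀ s ∈ S, sub m V s ∈ G}} ≤
        ∑ s ∈ S, #{h ∈ range H | pat z m (n + (h + s)) ∉ G} := by
      refine (card_le_card (t := S.biUnion fun s => {h ∈ range H | pat z m (n + (h + s)) ∉ G})
        ?_).trans card_biUnion_le
      intro h hh
      rw [mem_filter] at hh
      obtain ⟨h2, h3⟩ := hh
      rw [Set.mem_setOf_eq] at h3
      push Not at h3
      obtain ⟨s, hs, h4⟩ := h3
      rw [mem_biUnion]
      refine ⟨s, hs, ?_⟩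
      rw [mem_filter]
      refine ⟨h2, ?_⟩
      rw [sub_pat z m _ s (mem_range.1 (hS hs))] at h4
      rwa [← add_assoc]
    have h2 : ∀ s ∈ S, #{h ∈ range H | pat z m (n + (h + s)) ∉ G} ≤
        #{h ∈ range H | pat z m (n + h) ∉ G} + 9 * m := by
      intro s hs
      have h3 := shift_count (fun h => pat z m (n + h) ∉ G) H s
      have h4 := mem_range.1 (hS hs)
      omega
    have h3 := h1.trans (sum_le_sum h2)
    rw [sum_const, smul_eq_mul] at h3
    have h4 : (#{h ∈ range H | pat z (10 * m) (n + h) ∉ {V | ∀ s ∈ S, sub m V s ∈ G}} : ℝ) ≤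
        #S * (#{h ∈ range H | pat z m (n + h) ∉ G} + 9 * m) := by exact_mod_cast h3
    have hm0 : (0 : ℝ) < m := by exact_mod_cast h0
    have hI0' : (0 : ℝ) < #I := by exact_mod_cast hI0
    have hcount' : (#{h ∈ range H | pat z m (n + h) ∉ G} : ℝ) ≤
        η * #I / (100 * m) * H := by convert hcount
    have h5 : (#S : ℝ) * #I ≤ 16 * m := by
      rw [← hJc]
      exact_mod_cast hSc
    have h6 : (#S : ℝ) ≤ 16 * m := by
      have h7 : (1 : ℝ) ≤ #I := by exact_mod_cast hI0
      nlinarith [(Nat.cast_nonneg #S : (0 : ℝ) ≤ #S)]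
    have h7 : (#S : ℝ) * (η * #I / (100 * m) * H) ≤ 16 * (η / 100 * H) := by
      have e : (#S : ℝ) * (η * #I / (100 * m) * H) =
          ((#S : ℝ) * #I / m) * (η / 100 * H) := by
        field_simp
      rw [e]
      apply mul_le_mul_of_nonneg_right _ (by positivity)
      rw [div_le_iff₀ hm0]
      exact h5
    have h8 : 144 * (m : ℝ) ^ 2 ≤ η * (84 / 100) * H := by
      have h9 : (H₁ : ℝ) ≤ H := by exact_mod_cast hH
      have h10 := hH₁.trans h9
      rw [div_le_iff₀ (by positivity)] at h10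
      linarith
    have h9 : (#S : ℝ) * (9 * m) ≤ 144 * (m : ℝ) ^ 2 := by
      nlinarith [mul_le_mul_of_nonneg_right h6 (by positivity : (0 : ℝ) ≤ 9 * m)]
    have h10 : (#S : ℝ) * (#{h ∈ range H | pat z m (n + h) ∉ G} + 9 * m) ≤
        #S * (η * #I / (100 * m) * H) + #S * (9 * m) := by
      rw [mul_add]
      have := mul_le_mul_of_nonneg_left hcount' (Nat.cast_nonneg #S)
      linarith
    have h12 : (#{h ∈ range H | pat z (10 * m) (n + h) ∉ {V | ∀ s ∈ S, sub m V s ∈ G}} : ℝ) ≤
        η * H := by linarith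
    convert h12

end Pool.Agent.H83.V.Cov
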