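import Pool.Agent.H83.V.FV

/-!
Theorem W (strong form of Theorem V): at almost all scales `N`, almost all windows in `[1, N]`.
Targets.  The error `θ ^ 4 / 10 ^ 19` does not depend on the proportion `ρ` of the exceptional
scales.
-/

set_option autoImplicit false

open MeasureTheory ProbabilityTheory Filter Topology Finset
open scoped Nat ENNReal

namespace Pool.Agent.H83.V

open Pool.Agent.H24.T2 (Pset)
open Pool.Agent.H28.MCL (ldB Aw)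
open Pool.Agent.H67.AG (avgP ul Inv Rt Av)
open Pool.Agent.H28.LF (Wd La Cd dm ds lt ng SS ptS LX Xi LY Yi shX shY lX lY btY flY xiY SysX SysY
  CompY LwY ExY Wa DcO sY GoodC)

open Classical in
/-- **Theorem W** for `f`, `m`, `I`, `θ`, `ρ`: the scales `N` for which more than `θ N` of the
windows `[n, n + H)`, `n ≤ N`, are covered by a code up to `θ ^ 4 / 10 ^ 19` have logarithmic
density at most `ρ` in long intervals. -/
def ThmW (z : Bool) (m : ℕ) (I : Finset (Fin m)) (θ ρ : ℝ) : Prop :=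
  ∃ H₀ : ℕ, ∀ H, H₀ ≤ H → ∃ C : ℕ, ∀ x y : ℕ, 0 < x → C * x ≤ y →
    ∑ N ∈ (Icc x y).filter (fun N : ℕ => θ * N <
      (((Icc 1 N).filter fun n => Gn z m I (θ ^ 4 / 10 ^ 19) H n).card : ℝ)), (1 : ℝ) / N ≤
        ρ * Real.log ((y : ℝ) / x)

open Classical in
/-- WWN: disjoint long windows on which the statement fails (as `T_VWN`). -/
def T_WWN : Prop := ∀ (z : Bool) (m : ℕ) (I : Finset (Fin m)) (θ ρ : ℝ), 0 < ρ →
  ¬ ThmW z m I θ ρ →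
  ∃ H x y : ℕ → ℕ, (∀ j, j < H j) ∧ (∀ j, 0 < x j ∧ x j ≤ y j ∧ y j < x (j + 1)) ∧
    (∀ j : ℕ, (j : ℝ) * H j ≤ Real.log ((y j : ℝ) / x j)) ∧
    ∀ j, 9 / 10 * ρ * Real.log ((y j : ℝ) / x j) ≤
      ∑ N ∈ (Icc (x j) (y j)).filter (fun N : ℕ => θ * N <
        (((Icc 1 N).filter fun n => Gn z m I (θ ^ 4 / 10 ^ 19) (H j) n).card : ℝ)), (1 : ℝ) / N

open Classical in
/-- WBL: labels on one dyadic block (as `T_VBL`, with cardinalities; the shift modulo `H` is chosen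
for the block). -/
def T_WBL : Prop := ∀ (z : Bool) (m : ℕ) (I : Finset (Fin m)) (η : ℝ) (H i : ℕ), 0 ≤ η →
  0 < H → ∃ τ : ℕ → ℕ → Bool,
    (((Ico (2 ^ i) (2 ^ (i + 1))).filter (fun n => τ n ≠ τ (n + 1))).card : ℝ) ≤
      2 ^ i / (H : ℝ) + 2 ∧
    ∀ K : ℕ, 0 < K →
      (((Ico (2 ^ i) (2 ^ (i + 1))).filter (fun n => Gn z m I η H n)).card : ℝ) / 2 ≤
        (((Ico (2 ^ i) (2 ^ (i + 1))).filter
          (fun n => n + K ≤ 2 ^ (i + 1) ∧ aN z I τ K n ≤ 2 * η)).card : ℝ) +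
          H + K * (2 ^ i / (H : ℝ) + 1)

open Classical in
/-- WLN: many dyadic blocks with many points of `P` (pure counting; with `L = log (y / x)`). -/
def T_WLN : Prop := ∀ (P : ℕ → Prop) (θ c : ℝ) (x y : ℕ), 0 < θ → 0 < x → x ≤ y →
  c ≤ ∑ N ∈ (Icc x y).filter (fun N : ℕ => θ * N < (((Icc 1 N).filter P).card : ℝ)),
    (1 : ℝ) / N →
  θ / 4 * c - 10 ≤ (((range (y + 1)).filter fun l : ℕ => x ≤ 2 ^ l ∧ 2 ^ (l + 1) ≤ y ∧
    θ / 4 * 2 ^ l ≤ (((Ico (2 ^ l) (2 ^ (l + 1))).filter P).card : ℝ)).card : ℝ)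

open Classical in
/-- WYS: from blocks with many points of `P` to points `n` such that `n / p` is in `P` for many
primes `p` of the dyadic block `2 ^ k` (pure counting). -/
def T_WYS : Prop := ∀ (P : ℕ → Prop) (θ : ℝ) (k : ℕ), 0 < θ → (Pset 2 k).Nonempty →
  ∀ (S : Finset ℕ) (x y : ℕ), 0 < x → (∀ l ∈ S, x ≤ 2 ^ l ∧ 2 ^ (l + k + 2) ≤ y ∧
    θ / 16 * 2 ^ l ≤ (((Ico (2 ^ l) (2 ^ (l + 1))).filter P).card : ℝ)) →
  θ / 128 * S.card ≤ ∑ n ∈ (Icc x y).filter (fun n : ℕ =>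
    θ / 128 ≤ avgP 2 k fun p => if P (n / p) then 1 else 0), (1 : ℝ) / n

open Classical in
/-- WLB: the labels (as `T_VLB`). -/
def T_WLB : Prop := ∀ (z : Bool) (m : ℕ) (I : Finset (Fin m)) (θ ρ : ℝ), 0 < θ → 0 < ρ →
  ¬ ThmW z m I θ ρ →
  ∃ (U : Ultrafilter ℕ) (x y : ℕ → ℕ) (τ : ℕ → ℕ → Bool) (δ : ℝ), 0 < δ ∧ Aw U x y ∧
    ldB U x y {n | τ n ≠ τ (n + 1)} = 0 ∧
    ∀ K k : ℕ, 0 < K → (Pset 2 k).Nonempty →
      δ ≤ ldB U x y {n | θ / 128 ≤ avgP 2 k fun p =>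
        if aN z I τ K (n / p) ≤ 2 * (θ ^ 4 / 10 ^ 19) then 1 else 0}

open Classical in
/-- WYB: the same for the measure on the `y`-side (the set is closed; `LwY.cls`). -/
def T_WYB : Prop := ∀ (z : Bool) (m : ℕ) (I : Finset (Fin m)) (γ η δ : ℝ) (U : Ultrafilter ℕ)
  (x y : ℕ → ℕ) (τ : ℕ → ℕ → Bool) (P : Measure Yi), Aw U x y → LwY U x y τ P →
  ∀ K k : ℕ, 0 < K →
    δ ≤ ldB U x y {n | γ ≤ avgP 2 k fun p => if aN z I τ K (n / p) ≤ η then 1 else 0} →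
    δ ≤ P.real {ω | γ ≤ avgP 2 k fun p => if Av shX 1 K (eX z I) (xiY p ω) ≤ η then 1 else 0}

open Classical in
/-- WFX: the invariant set of the `n`-side (as `T_VFX`). -/
def T_WFX : Prop := ∀ (z : Bool) (m : ℕ) (I : Finset (Fin m)) (γ η δ : ℝ) (PX : Measure Xi)
  (P : Measure Yi), IsProbabilityMeasure PX → MeasurePreserving shX PX PX → SysY PX P → 0 < η →
  (∀ K k : ℕ, 0 < K → (Pset 2 k).Nonempty →
    δ ≤ P.real {ω | γ ≤ avgP 2 k fun p =>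
      if Av shX 1 K (eX z I) (xiY p ω) ≤ η then 1 else 0}) →
  ∃ F : Set Xi, MeasurableSet F ∧ shX ⁻¹' F = F ∧
    (∀ ν : Measure Xi, IsProbabilityMeasure ν → MeasurePreserving shX ν ν → ν.real F = 1 →
      ∫ ξ, eX z I ξ ∂ν ≤ 3 / 2 * η) ∧
    ∀ k : ℕ, (Pset 2 k).Nonempty →
      δ ≤ P.real {ω | γ ≤ avgP 2 k fun p => if xiY p ω ∈ F then 1 else 0}

open Classical in
/-- WSD: the primes with a flag on the components (as `T_SDN`). -/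
def T_WSD : Prop := ∀ (PX : Measure Xi) (P : Measure Yi) (F : Set Xi) (κ : Kernel Yi Yi)
  [IsMarkovKernel κ] (γ δ : ℝ) (k : ℕ), IsProbabilityMeasure PX → SysY PX P → MeasurableSet F →
  shX ⁻¹' F = F → (∀ B, MeasurableSet B → P B = ∫⁻ ω, κ ω B ∂P) → (∀ᵐ ω ∂P, CompY (κ ω)) →
  (Pset 2 k).Nonempty →
  δ ≤ P.real {ω | γ ≤ avgP 2 k fun p => if xiY p ω ∈ F then 1 else 0} →
  MeasurableSet {ω | γ ≤ avgP 2 k (sY F (κ ω))} ∧
    δ ≤ P.real {ω | γ ≤ avgP 2 k (sY F (κ ω))}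

open Classical in
/-- WSE: a component with infinitely many good scales (as `T_SEL`, with `B = ∅`). -/
def T_WSE : Prop := ∀ (PX : Measure Xi) (P : Measure Yi) (F : Set Xi)
  (κ : Kernel Yi Yi) [IsMarkovKernel κ] (γ δ : ℝ), IsProbabilityMeasure PX → SysY PX P →
  MeasurableSet F → shX ⁻¹' F = F → 0 < γ → 0 < δ →
  (∀ k : ℕ, (Pset 2 k).Nonempty →
    δ ≤ P.real {ω | γ ≤ avgP 2 k fun p => if xiY p ω ∈ F then 1 else 0}) →
  (∀ B, MeasurableSet B → P B = ∫⁻ ω, κ ω B ∂P) →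
  (∀ᵐ ω ∂P, CompY (κ ω)) → ∀ S : Set Yi, (∀ᵐ ω ∂P, ω ∈ S) →
  ∃ ω ∈ S, ∃ᶠ i in atTop, ∃ k, GoodC F (fun _ => ∅) (2 * γ) (κ ω) i k

end Pool.Agent.H83.V
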