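import Pool.Agent.H83.V.Hand
import Pool.Agent.H83.V.CovW
import Pool.Agent.H83.V.TW

/-!
Theorem W in terms of Mathlib's functions.
-/

set_option autoImplicit false

open Finset

namespace Pool.Agent.H83.V.Hand

open Classical in
/-- from long words with many places to short words and arbitrary sets of places -/
theorem mainW_of (z : Bool) (m : ℕ) (I : Finset (Fin m)) (hI : I.Nonempty) (θ ρ : ℝ)
    (hθ : 0 < θ) (hW : ∀ I' : Finset (Fin (10 * m)), 10 * m ≤ 2 * #I' → ThmW z (10 * m) I' θ ρ) :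
    ∃ H₀ : ℕ, ∀ H, H₀ ≤ H → ∃ C : ℕ, ∀ x y : ℕ, 0 < x → C * x ≤ y →
      ∑ N ∈ (Icc x y).filter (fun N : ℕ => θ * N <
        (#{n ∈ Icc 1 N | ∃ G : Set (Fin m → ℤ), IsCode I G ∧
          (#{h ∈ range H | (fun i : Fin m => f z (n + h + i + 1)) ∉ G} : ℝ) ≤
            θ ^ 4 * #I / (10 ^ 21 * m) * H} : ℝ)), (1 : ℝ) / N ≤
        ρ * Real.log ((y : ℝ) / x) := by
  obtain ⟨I', hI', hη⟩ := Cov.gn_long m I hI
  obtain ⟨H₁, hη⟩ := hη (θ ^ 4 / 10 ^ 19) (by positivity)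
  obtain ⟨H₀, h⟩ := hW I' hI'
  refine ⟨max H₀ H₁, fun H hH => ?_⟩
  obtain ⟨C, h⟩ := h H ((le_max_left _ _).trans hH)
  refine ⟨C, fun x y hx hxy => le_trans ?_ (h x y hx hxy)⟩
  refine sum_le_sum_of_subset_of_nonneg ?_ fun i _ _ => by positivity
  intro N hN
  rw [mem_filter] at hN ⊢
  refine ⟨hN.1, lt_of_lt_of_le hN.2 ?_⟩
  have hsub : {n ∈ Icc 1 N | ∃ G : Set (Fin m → ℤ), IsCode I G ∧
      (#{h ∈ range H | (fun i : Fin m => f z (n + h + i + 1)) ∉ G} : ℝ) ≤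
        θ ^ 4 * #I / (10 ^ 21 * m) * H} ⊆
      (Icc 1 N).filter fun n => Gn z (10 * m) I' (θ ^ 4 / 10 ^ 19) H n := by
    intro n hn
    rw [mem_filter] at hn ⊢
    refine ⟨hn.1, hη H ((le_max_right _ _).trans hH) z n ?_⟩
    obtain ⟨G, hG, hc⟩ := hn.2
    refine ⟨G, code_iff hG, le_trans (le_of_eq ?_) (hc.trans (le_of_eq ?_))⟩
    · have e : ∀ h : ℕ, pat z m (n + h) = fun i : Fin m => f z (n + h + i + 1) := by
        intro h
        funext i
        exact (f_eq z (n + h + i + 1) (by omega)).symm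
      simp only [e]
    · congr 1
      ring
  exact_mod_cast card_le_card hsub

end Pool.Agent.H83.V.Hand
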