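import Pool.Agent.H83.V.AllV
import Pool.Agent.H83.V.FinW
import Pool.Agent.H83.V.HandW
import Pool.Agent.H57.W.WWN
import Pool.Agent.H75.W.WBL
import Pool.Agent.H54.W.WLN
import Pool.Agent.H82.W.WYS
import Pool.Agent.H96.W.WLB
import Pool.Agent.H88.W.WYB
import Pool.Agent.H88.W.WFX
import Pool.Agent.H57.W.WSD
import Pool.Agent.H19.W.WSE

/-!
Theorem W: assembly.
-/

set_option autoImplicit false

open Finset

namespace Pool.Agent.H83.V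

theorem w_WWN : T_WWN := Pool.Agent.H57.W.pf_WWN
theorem w_WBL : T_WBL := Pool.Agent.H75.W.pf_WBL v_GDL
theorem w_WLN : T_WLN := Pool.Agent.H54.W.pf_WLN
theorem w_WYS : T_WYS := Pool.Agent.H82.W.pf_WYS
theorem w_WLB : T_WLB := Pool.Agent.H96.W.pf_WLB w_WWN w_WBL w_WLN w_WYS v_LDB
theorem w_WYB : T_WYB := Pool.Agent.H88.W.pf_WYB v_GDL
theorem w_WFX : T_WFX := Pool.Agent.H88.W.pf_WFX v_BK v_GDL
theorem w_WSD : T_WSD := Pool.Agent.H57.W.pf_WSD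
theorem w_WSE : T_WSE := Pool.Agent.H19.W.pf_WSE v_DCC Pool.Agent.H40.LF.pf_SDM w_WSD
  Pool.Agent.H40.LF.pf_SEB

/-- **Theorem W** -/
theorem thmW (z : Bool) (m : ℕ) (I : Finset (Fin m)) (θ ρ : ℝ) (hm : 2 ≤ m)
    (hI : m ≤ 2 * I.card) (hθ : 0 < θ) (hρ : 0 < ρ) : ThmW z m I θ ρ :=
  thmW_of w_WLB v_VSX w_WYB w_WFX w_WSE v_LDB v_YEX v_YLW v_YRL v_YST v_YSQ v_YMR v_CMP v_VER
    v_LBV v_VXY noVx z m I θ ρ hm hI hθ hρ

open Classical in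
/-- Theorem W in terms of Mathlib's functions -/
theorem Hand.mainW (z : Bool) (m : ℕ) (I : Finset (Fin m)) (hI : I.Nonempty) (θ ρ : ℝ)
    (hθ : 0 < θ) (hρ : 0 < ρ) :
    ∃ H₀ : ℕ, ∀ H, H₀ ≤ H → ∃ C : ℕ, ∀ x y : ℕ, 0 < x → C * x ≤ y →
      ∑ N ∈ (Icc x y).filter (fun N : ℕ => θ * N <
        (#{n ∈ Icc 1 N | ∃ G : Set (Fin m → ℤ), Hand.IsCode I G ∧
          (#{h ∈ range H | (fun i : Fin m => Hand.f z (n + h + i + 1)) ∉ G} : ℝ) ≤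
            θ ^ 4 * #I / (10 ^ 21 * m) * H} : ℝ)), (1 : ℝ) / N ≤
        ρ * Real.log ((y : ℝ) / x) := by
  have hm : 0 < m := by
    obtain ⟨i, _⟩ := hI
    exact lt_of_le_of_lt (Nat.zero_le _) i.2
  exact Hand.mainW_of z m I hI θ ρ hθ fun I' hI' => thmW z (10 * m) I' θ ρ (by omega) hI' hθ hρ

end Pool.Agent.H83.V
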