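import Pool.Agent.H85.RTX.Birk
import Pool.Agent.H40.AG.TargetsE
import Pool.Agent.H67.AG.T1

/-!
The pointwise ergodic theorem `T_BK`, from the existence of the limit (`H85.RTX.birkhoff`) and the
mean ergodic theorem.
-/

set_option autoImplicit false

open MeasureTheory ProbabilityTheory Filter Topology Finset
open scoped Nat ENNReal

namespace Pool.Agent.H83.V.BK

open Pool.Agent.H67.AG (Inv Av T_ME)

variable {Ω : Type} [MeasurableSpace Ω]

theorem av_eq (T : Ω ≃ᵐ Ω) (W n : ℕ) (f : Ω → ℝ) (ω : Ω) :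
    Pool.Agent.H85.RTX.Av (T^[W]) f n ω = Av T W n f ω := by
  unfold Pool.Agent.H85.RTX.Av Av
  congr 1
  refine Finset.sum_congr rfl fun l _ => ?_
  rw [← Function.iterate_mul]

theorem one (hM : T_ME) (P : Measure Ω) [IsProbabilityMeasure P] (T : Ω ≃ᵐ Ω) (W : ℕ)
    (f : Ω → ℝ) (mp : MeasurePreserving T P P) (hf : Measurable f) (hb : ∀ ω, |f ω| ≤ 1) :
    ∀ᵐ ω ∂P, Tendsto (fun n => Av T W n f ω) atTop (𝓝 ((P[f | Inv T W]) ω)) := by
  classical
  have mpW : MeasurePreserving (T^[W]) P P := mp.iterate W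
  have h1 := Pool.Agent.H85.RTX.birkhoff mpW hf hb
  simp only [av_eq] at h1
  have hc : ∃ l : Ω → ℝ, ∀ᵐ ω ∂P, Tendsto (fun n => Av T W n f ω) atTop (𝓝 (l ω)) := by
    refine ⟨fun ω => if h : ∃ l : ℝ, Tendsto (fun n => Av T W n f ω) atTop (𝓝 l) then h.choose
      else 0, ?_⟩
    filter_upwards [h1] with ω hω
    simp only [hω, dif_pos]
    exact hω.choose_spec
  obtain ⟨l, hl⟩ := hc
  set E : Ω → ℝ := P[f | Inv T W] with hE
  have hle : Inv T W ≤ (inferInstance : MeasurableSpace Ω) := fun s hs => hs.1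
  have hEm : AEStronglyMeasurable E P := integrable_condExp.aestronglyMeasurable
  have hEb : ∀ᵐ ω ∂P, |E ω| ≤ 1 := by
    have h := ae_bdd_condExp_of_ae_bdd (m := Inv T W) (R := 1) (f := f) (μ := P)
      (Eventually.of_forall fun ω => by simpa using hb ω)
    simpa using h
  have hAm : ∀ n, Measurable (fun ω => Av T W n f ω) := by
    intro n
    unfold Av
    refine Measurable.div_const (Finset.measurable_sum _ fun l _ => ?_) _
    exact hf.comp (T.measurable.iterate _)
  have hAb : ∀ n ω, |Av T W n f ω| ≤ 1 := by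
    intro n ω
    unfold Av
    rw [abs_div, Nat.abs_cast]
    rcases Nat.eq_zero_or_pos n with h0 | h0
    · rw [h0]; simp
    · have hN : (0 : ℝ) < n := by exact_mod_cast h0
      rw [div_le_iff₀ hN]
      refine (Finset.abs_sum_le_sum_abs _ _).trans ?_
      refine (Finset.sum_le_sum fun n _ => hb _).trans ?_
      simp
  have hlim := tendsto_integral_of_dominated_convergence (μ := P)
    (F := fun n ω => (Av T W n f ω - E ω) ^ 2) (f := fun ω => (l ω - E ω) ^ 2)
    (fun _ => (4 : ℝ)) (fun n => ((hAm n).aestronglyMeasurable.sub hEm).pow 2)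
    (integrable_const _) (fun n => by
      filter_upwards [hEb] with ω hω
      rw [Real.norm_eq_abs, abs_of_nonneg (sq_nonneg _)]
      have h2 := abs_le.1 (hAb n ω)
      have h3 := abs_le.1 hω
      nlinarith) (by
      filter_upwards [hl] with ω hω
      exact (hω.sub_const _).pow 2)
  have h0 := tendsto_nhds_unique hlim (hM Ω P T W f mp hf hb)
  have hlm : AEStronglyMeasurable l P :=
    aestronglyMeasurable_of_tendsto_ae atTop (fun n => (hAm n).aestronglyMeasurable) hl
  have hlb : ∀ᵐ ω ∂P, |l ω| ≤ 1 := by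
    filter_upwards [hl] with ω hω
    exact le_of_tendsto hω.abs (Eventually.of_forall fun n => hAb n ω)
  have hint : Integrable (fun ω => (l ω - E ω) ^ 2) P := by
    refine Integrable.of_bound ((hlm.sub hEm).pow 2) 4 ?_
    filter_upwards [hEb, hlb] with ω h2 h3
    rw [Real.norm_eq_abs, abs_of_nonneg (sq_nonneg _)]
    have h2 := abs_le.1 h2
    have h3 := abs_le.1 h3
    nlinarith
  rw [integral_eq_zero_iff_of_nonneg (fun ω => sq_nonneg _) hint] at h0
  filter_upwards [h0, hl] with ω h2 h3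
  have h4 : l ω = E ω := by
    have : (l ω - E ω) ^ 2 = 0 := h2
    have := pow_eq_zero_iff (two_ne_zero) |>.1 this
    linarith
  rw [← h4]
  exact h3

theorem pf_BK (hM : T_ME) : Pool.Agent.H40.AG.T_BK := by
  intro Ω _ P _ T W f mp hf ⟨C, hC⟩
  set c : ℝ := |C| + 1 with hc
  have hc0 : 0 < c := by positivity
  have hb : ∀ ω, |f ω / c| ≤ 1 := by
    intro ω
    rw [abs_div, abs_of_pos hc0, div_le_one hc0]
    exact (hC ω).trans ((le_abs_self C).trans (by linarith))
  have h1 := one hM P T W (fun ω => f ω / c) mp (hf.div_const c) hb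
  have h2 : P[fun ω => f ω / c | Inv T W] =ᵐ[P] fun ω => (P[f | Inv T W]) ω / c := by
    have h3 := condExp_smul (μ := P) (c⁻¹) f (Inv T W)
    have e : (fun ω => f ω / c) = c⁻¹ • f := by
      ext ω; simp [div_eq_inv_mul]
    rw [e]
    filter_upwards [h3] with ω hω
    rw [hω]
    simp [div_eq_inv_mul]
  filter_upwards [h1, h2] with ω h3 h4
  rw [h4] at h3
  have h5 := h3.mul_const c
  have e1 : ∀ n, Av T W n (fun ω => f ω / c) ω * c = Av T W n f ω := by
    intro n
    unfold Av
    rw [← Finset.sum_div]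
    field_simp
  simp only [e1] at h5
  rw [div_mul_cancel₀ _ hc0.ne'] at h5
  exact h5

end Pool.Agent.H83.V.BK
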