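import Pool.Agent.H83.V.FV

/-!
Theorem V for arbitrary sets of places: covering of a long word by shifts of the set `I`.
-/

set_option autoImplicit false

open Finset

namespace Pool.Agent.H83.V.Cov

/-- the covered places -/
def cv (m : ℕ) (J S : Finset ℕ) : Finset ℕ :=
  (Ico m (9 * m)).filter fun j => ∃ s ∈ S, ∃ i ∈ J, j = s + i

theorem step (m : ℕ) (J S : Finset ℕ) (hJ : J ⊆ range m) (hS : S ⊆ range (9 * m))
    (h0 : 0 < m) (hlt : #(cv m J S) < 5 * m) :
    ∃ s ∈ range (9 * m), #J ≤ 3 * (#(cv m J (insert s S)) - #(cv m J S)) := by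
  classical
  rcases Nat.eq_zero_or_pos #J with hJ0 | hJ0
  · exact ⟨0, by simp; omega, by omega⟩
  set U : Finset ℕ := Ico m (9 * m) \ cv m J S with hU
  have hUc : 3 * m < #U := by
    have h1 : cv m J S ⊆ Ico m (9 * m) := filter_subset _ _
    rw [hU, card_sdiff_of_subset h1, Nat.card_Ico]
    omega
  by_contra hcon
  push Not at hcon
  -- the new places
  have hnew : ∀ s ∈ range (9 * m), #{j ∈ U | ∃ i ∈ J, j = s + i} ≤
      #(cv m J (insert s S)) - #(cv m J S) := by
    intro s _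
    have h1 : Disjoint (cv m J S) {j ∈ U | ∃ i ∈ J, j = s + i} := by
      rw [Finset.disjoint_left]
      intro j hj hj'
      rw [mem_filter, hU, mem_sdiff] at hj'
      exact hj'.1.2 hj
    have h2 : cv m J S ∪ {j ∈ U | ∃ i ∈ J, j = s + i} ⊆ cv m J (insert s S) := by
      intro j hj
      rw [mem_union] at hj
      unfold cv
      rw [mem_filter]
      rcases hj with hj | hj
      · unfold cv at hj
        rw [mem_filter] at hj
        obtain ⟨h3, s', hs', i, hi, he⟩ := hj
        exact ⟨h3, s', mem_insert_of_mem hs', i, hi, he⟩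
      · rw [mem_filter, hU, mem_sdiff] at hj
        obtain ⟨⟨h3, -⟩, i, hi, he⟩ := hj
        exact ⟨h3, s, mem_insert_self _ _, i, hi, he⟩
    have h3 := card_le_card h2
    rw [card_union_of_disjoint h1] at h3
    omega
  -- double counting
  have hdc : ∑ s ∈ range (9 * m), #{j ∈ U | ∃ i ∈ J, j = s + i} = #U * #J := by
    have h1 : ∀ s ∈ range (9 * m), #{j ∈ U | ∃ i ∈ J, j = s + i} =
        ∑ j ∈ U, if ∃ i ∈ J, j = s + i then 1 else 0 := by
      intro s _
      rw [card_filter]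
    rw [sum_congr rfl h1, sum_comm]
    have h2 : ∀ j ∈ U, (∑ s ∈ range (9 * m), if ∃ i ∈ J, j = s + i then 1 else 0) = #J := by
      intro j hj
      rw [hU, mem_sdiff, mem_Ico] at hj
      rw [← card_filter]
      refine (card_bij (fun i _ => j - i) ?_ ?_ ?_).symm
      · intro i hi
        have hi' := mem_range.1 (hJ hi)
        rw [mem_filter, mem_range]
        refine ⟨by omega, i, hi, by omega⟩
      · intro a ha b hb hab
        have ha' := mem_range.1 (hJ ha)
        have hb' := mem_range.1 (hJ hb)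
        omega
      · intro s hs
        rw [mem_filter] at hs
        obtain ⟨_, i, hi, he⟩ := hs
        exact ⟨i, hi, by omega⟩
    rw [sum_congr rfl h2, sum_const, smul_eq_mul]
  have h1 : ∑ s ∈ range (9 * m), 3 * #{j ∈ U | ∃ i ∈ J, j = s + i} ≤
      ∑ s ∈ range (9 * m), (#J - 1) := by
    refine sum_le_sum fun s hs => ?_
    have h2 := hcon s hs
    have h3 := hnew s hs
    omega
  rw [← mul_sum, hdc, sum_const, card_range, smul_eq_mul] at h1
  have h2 : 3 * ((3 * m) * #J) < 3 * (#U * #J) := by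
    have := Nat.mul_lt_mul_of_pos_right hUc hJ0
    omega
  have h3 : 9 * m * (#J - 1) ≤ 9 * m * #J := Nat.mul_le_mul_left _ (by omega)
  nlinarith

theorem greedy (m : ℕ) (J : Finset ℕ) (hJ : J ⊆ range m) (h0 : 0 < m) (r : ℕ) :
    ∃ S ⊆ range (9 * m), #S ≤ r ∧ (5 * m ≤ #(cv m J S) ∨ r * #J ≤ 3 * #(cv m J S)) := by
  classical
  induction r with
  | zero => exact ⟨∅, by simp, by simp, Or.inr (by simp)⟩
  | succ r ih =>
    obtain ⟨S, h1, h2, h3⟩ := ih
    by_cases h4 : 5 * m ≤ #(cv m J S)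
    · exact ⟨S, h1, by omega, Or.inl h4⟩
    · obtain ⟨s, hs, h5⟩ := step m J S hJ h1 h0 (by omega)
      refine ⟨insert s S, ?_, ?_, Or.inr ?_⟩
      · intro x hx
        rw [mem_insert] at hx
        rcases hx with rfl | hx
        · exact hs
        · exact h1 hx
      · have := card_insert_le s S
        omega
      · have h6 : r * #J ≤ 3 * #(cv m J S) := by
          rcases h3 with h3 | h3
          · exact absurd h3 h4
          · exact h3
        have h7 : #(cv m J S) ≤ #(cv m J (insert s S)) := by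
          apply card_le_card
          intro j hj
          unfold cv at hj ⊢
          rw [mem_filter] at hj ⊢
          obtain ⟨h8, s', hs', h9⟩ := hj
          exact ⟨h8, s', mem_insert_of_mem hs', h9⟩
        have h8 : (r + 1) * #J = r * #J + #J := by ring
        omega

theorem cover (m : ℕ) (J : Finset ℕ) (hJ : J ⊆ range m) (h0 : 0 < m) (hJ0 : 0 < #J) :
    ∃ S ⊆ range (9 * m), #S * #J ≤ 16 * m ∧ 5 * m ≤ #(cv m J S) := by
  obtain ⟨S, h1, h2, h3⟩ := greedy m J hJ h0 ((15 * m + #J - 1) / #J)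
  have hJm : #J ≤ m := by
    have := card_le_card hJ
    rwa [card_range] at this
  refine ⟨S, h1, ?_, ?_⟩
  · have h4 : (15 * m + #J - 1) / #J * #J ≤ 15 * m + #J - 1 := Nat.div_mul_le_self _ _
    have h5 := Nat.mul_le_mul_right #J h2
    omega
  · rcases h3 with h3 | h3
    · exact h3
    · have h4 : 15 * m ≤ (15 * m + #J - 1) / #J * #J := by
        have h5 := Nat.lt_div_mul_add (a := 15 * m + #J - 1) hJ0
        omega
      omega

/-- part of a long word -/
def sub {M : ℕ} (m : ℕ) (V : Fin M → ℤ) (s : ℕ) : Fin m → ℤ :=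
  fun i => if h : s + i < M then V ⟨s + i, h⟩ else 0

theorem sub_pat (z : Bool) (m n s : ℕ) (hs : s < 9 * m) :
    sub m (pat z (10 * m) n) s = pat z m (n + s) := by
  funext i
  have hi := i.2
  simp only [sub, pat]
  rw [dif_pos (by omega)]
  congr 2
  omega

theorem shift_count (P : ℕ → Prop) [DecidablePred P] (H s : ℕ) :
    #{h ∈ range H | P (h + s)} ≤ #{h ∈ range H | P h} + s := by
  classical
  have h1 : #{h ∈ range H | P (h + s)} ≤ #{h ∈ range (H + s) | P h} := by
    refine card_le_card_of_injOn (fun h => h + s) ?_ ?_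
    · intro h hh
      simp only [coe_filter, mem_range, Set.mem_setOf_eq] at hh ⊢
      exact ⟨by omega, hh.2⟩
    · intro a _ b _ hab
      simp only at hab
      omega
  have h2 : {h ∈ range (H + s) | P h} ⊆ {h ∈ range H | P h} ∪ Ico H (H + s) := by
    intro h hh
    rw [mem_filter, mem_range] at hh
    rw [mem_union, mem_filter, mem_range, mem_Ico]
    by_cases h3 : h < H
    · exact Or.inl ⟨h3, hh.2⟩
    · exact Or.inr ⟨by omega, hh.1⟩
  have h3 := card_le_card h2
  have h4 := card_union_le {h ∈ range H | P h} (Ico H (H + s))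
  rw [Nat.card_Ico] at h4
  omega

/-- Theorem V for arbitrary sets of places -/
theorem general (z : Bool) (m : ℕ) (I : Finset (Fin m)) (ρ : ℝ) (hI : I.Nonempty) (hρ : 0 < ρ)
    (hV : ∀ I' : Finset (Fin (10 * m)), 10 * m ≤ 2 * #I' → ThmV z (10 * m) I' ρ) :
    ∃ H₀ : ℕ, ∀ H, H₀ ≤ H → ∃ C : ℕ, ∀ x y : ℕ, 0 < x → C * x ≤ y → ∀ A : Finset ℕ,
      A ⊆ Icc x y → (∀ n ∈ A, Gn z m I (ρ ^ 4 * #I / (10 ^ 17 * m)) H n) →
      ∑ n ∈ A, (1 : ℝ) / n ≤ ρ * Real.log ((y : ℝ) / x) := by
  classical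
  have h0 : 0 < m := by
    obtain ⟨i, _⟩ := hI
    exact lt_of_le_of_lt (Nat.zero_le _) i.2
  set J : Finset ℕ := I.map Fin.valEmbedding with hJ
  have hJr : J ⊆ range m := by
    intro j hj
    rw [hJ, mem_map] at hj
    obtain ⟨i, _, rfl⟩ := hj
    exact mem_range.2 i.2
  have hJc : #J = #I := card_map _
  have hI0 : 0 < #I := hI.card_pos
  obtain ⟨S, hS, hSc, hcv⟩ := cover m J hJr h0 (by omega)
  set I' : Finset (Fin (10 * m)) := univ.filter fun j => (j : ℕ) ∈ cv m J S with hI'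
  have hI'c : #(cv m J S) ≤ #I' := by
    have h1 : cv m J S ⊆ I'.map Fin.valEmbedding := by
      intro j hj
      have hj' := hj
      unfold cv at hj'
      rw [mem_filter, mem_Ico] at hj'
      rw [mem_map]
      refine ⟨⟨j, by omega⟩, ?_, rfl⟩
      rw [hI', mem_filter]
      exact ⟨mem_univ _, hj⟩
    have h2 := card_le_card h1
    rwa [card_map] at h2
  obtain ⟨H₀, hH₀⟩ := hV I' (by omega)
  have hρ4 : 0 < ρ ^ 4 := by positivity
  obtain ⟨H₁, hH₁⟩ := exists_nat_ge ((144 * (m : ℝ) ^ 2) / (ρ ^ 4 * (8 / 10 ^ 16)))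
  refine ⟨max H₀ H₁, fun H hH => ?_⟩
  obtain ⟨C, hC⟩ := hH₀ H ((le_max_left _ _).trans hH)
  refine ⟨C, fun x y hx hxy A hA hGn => le_trans ?_ (hC x y hx hxy)⟩
  refine sum_le_sum_of_subset_of_nonneg ?_ fun i _ _ => by positivity
  intro n hn
  rw [mem_filter]
  refine ⟨hA hn, ?_⟩
  obtain ⟨G, hG, hcount⟩ := hGn n hn
  refine ⟨{V | ∀ s ∈ S, sub m V s ∈ G}, ?_, ?_⟩
  · -- the code
    intro v hv w hw j hj h1 h2
    rw [hI', mem_filter] at hj
    have hj' := hj.2
    unfold cv at hj'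
    rw [mem_filter] at hj'
    obtain ⟨h3, s, hs, i, hi, he⟩ := hj'
    rw [hJ, mem_map] at hi
    obtain ⟨i, hi, rfl⟩ := hi
    have he' : (j : ℕ) = s + (i : ℕ) := he
    have hij : ∀ V : Fin (10 * m) → ℤ, sub m V s i = V j := by
      intro V
      unfold sub
      rw [dif_pos (by have := j.2; omega)]
      congr 1
      exact Fin.ext he'.symm
    obtain ⟨i', hi', hne⟩ := hG _ (hv s hs) _ (hw s hs) i hi (by rw [hij]; exact h1)
      (by rw [hij, hij]; exact h2)
    have hs9 := mem_range.1 (hS hs)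
    have hlt : s + (i' : ℕ) < 10 * m := by have := i'.2; omega
    refine ⟨⟨s + i', hlt⟩, ?_, ?_⟩
    · intro hcon
      apply hi'
      have h4 := congrArg Fin.val hcon
      simp only at h4
      exact Fin.ext (by omega)
    · unfold sub at hne
      rw [dif_pos hlt, dif_pos hlt] at hne
      exact hne
  · -- the number of errors
    have h1 : #{h ∈ range H | pat z (10 * m) (n + h) ∉ {V | ∀ s ∈ S, sub m V s ∈ G}} ≤
        ∑ s ∈ S, #{h ∈ range H | pat z m (n + (h + s)) ∉ G} := by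
      refine (card_le_card (t := S.biUnion fun s => {h ∈ range H | pat z m (n + (h + s)) ∉ G})
        ?_).trans card_biUnion_le
      intro h hh
      rw [mem_filter] at hh
      obtain ⟨h2, h3⟩ := hh
      rw [Set.mem_setOf_eq] at h3
      push Not at h3
      obtain ⟨s, hs, h4⟩ := h3
      rw [mem_biUnion]
      refine ⟨s, hs, ?_⟩
      rw [mem_filter]
      refine ⟨h2, ?_⟩
      rw [sub_pat z m _ s (mem_range.1 (hS hs))] at h4
      rwa [← add_assoc]
    have h2 : ∀ s ∈ S, #{h ∈ range H | pat z m (n + (h + s)) ∉ G} ≤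
        #{h ∈ range H | pat z m (n + h) ∉ G} + 9 * m := by
      intro s hs
      have h3 := shift_count (fun h => pat z m (n + h) ∉ G) H s
      have h4 := mem_range.1 (hS hs)
      omega
    have h3 := h1.trans (sum_le_sum h2)
    rw [sum_const, smul_eq_mul] at h3
    have h4 : (#{h ∈ range H | pat z (10 * m) (n + h) ∉ {V | ∀ s ∈ S, sub m V s ∈ G}} : ℝ) ≤
        #S * (#{h ∈ range H | pat z m (n + h) ∉ G} + 9 * m) := by exact_mod_cast h3
    have hm0 : (0 : ℝ) < m := by exact_mod_cast h0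
    have hI0' : (0 : ℝ) < #I := by exact_mod_cast hI0
    have hcount' : (#{h ∈ range H | pat z m (n + h) ∉ G} : ℝ) ≤
        ρ ^ 4 * #I / (10 ^ 17 * m) * H := by convert hcount
    have h5 : (#S : ℝ) * #I ≤ 16 * m := by
      rw [← hJc]
      exact_mod_cast hSc
    have h6 : (#S : ℝ) ≤ 16 * m := by
      have h7 : (1 : ℝ) ≤ #I := by exact_mod_cast hI0
      nlinarith [(Nat.cast_nonneg #S : (0 : ℝ) ≤ #S)]
    have h7 : (#S : ℝ) * (ρ ^ 4 * #I / (10 ^ 17 * m) * H) ≤ 16 * (ρ ^ 4 / 10 ^ 17 * H) := by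
      have e : (#S : ℝ) * (ρ ^ 4 * #I / (10 ^ 17 * m) * H) =
          ((#S : ℝ) * #I / m) * (ρ ^ 4 / 10 ^ 17 * H) := by
        field_simp
      rw [e]
      apply mul_le_mul_of_nonneg_right _ (by positivity)
      rw [div_le_iff₀ hm0]
      exact h5
    have h8 : 144 * (m : ℝ) ^ 2 ≤ ρ ^ 4 * (8 / 10 ^ 16) * H := by
      have h9 : (H₁ : ℝ) ≤ H := by exact_mod_cast (le_max_right _ _).trans hH
      have h10 := hH₁.trans h9
      rw [div_le_iff₀ (by positivity)] at h10
      linarith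
    have h9 : (#S : ℝ) * (9 * m) ≤ 144 * (m : ℝ) ^ 2 := by
      nlinarith [mul_le_mul_of_nonneg_right h6 (by positivity : (0 : ℝ) ≤ 9 * m)]
    have h10 : (#S : ℝ) * (#{h ∈ range H | pat z m (n + h) ∉ G} + 9 * m) ≤
        #S * (ρ ^ 4 * #I / (10 ^ 17 * m) * H) + #S * (9 * m) := by
      rw [mul_add]
      have := mul_le_mul_of_nonneg_left hcount' (Nat.cast_nonneg #S)
      linarith
    have h11 : 16 * (ρ ^ 4 / 10 ^ 17 * H) + ρ ^ 4 * (8 / 10 ^ 16) * H ≤ ρ ^ 4 / 10 ^ 15 * H := by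
      have e : 16 * (ρ ^ 4 / 10 ^ 17 * H) + ρ ^ 4 * (8 / 10 ^ 16) * H =
        (96 / 100) * (ρ ^ 4 / 10 ^ 15 * H) := by ring
      rw [e]
      have : 0 ≤ ρ ^ 4 / 10 ^ 15 * H := by positivity
      linarith
    have h12 : (#{h ∈ range H | pat z (10 * m) (n + h) ∉ {V | ∀ s ∈ S, sub m V s ∈ G}} : ℝ) ≤
        ρ ^ 4 / 10 ^ 15 * H := by linarith
    convert h12

end Pool.Agent.H83.V.Cov
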