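import Pool.Agent.H28.LF.T1

/-!
Theorem V (`MP_34b97f_an`, `MP_c59857_nt`: the sign patterns of `λ` are not a code).  Definitions
for the ergodic part.  The proof on paper is in the store, `H83_V.md`.  The basic objects (`Wd`,
`La`, `Cd`, `dm`, `ds`) are those of `Pool.Agent.H28.LF`.
-/

set_option autoImplicit false

open MeasureTheory ProbabilityTheory Filter Topology Finset
open scoped Nat ENNReal

namespace Pool.Agent.H83.V

open Pool.Agent.H24.T2 (Pset)
open Pool.Agent.H67.AG (avgP ul Inv Rt Av SA kap JJ TT InvZ nxt triv tow XN PN TN XX PX TX prX Fac)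
open Pool.Agent.H40.AG (QQ dg)
open Pool.Agent.H28.LF (Wd La Cd dm ds)

/-- two words outside of `B` do not have exactly one mismatch, at a place of `I` -/
def CodeI {q m : ℕ} (I : Finset (Fin m)) (B : Set (Fin m → Fin q)) : Prop :=
  ∀ v v' : Fin m → Fin q, v ∉ B → v' ∉ B → ∀ i ∈ I, v i ≠ v' i → ∃ j, j ≠ i ∧ v j ≠ v' j

/-- the constant of the pair correlations (as in `T_STC`) -/
noncomputable def kp (γ : ℝ) : ℝ := γ ^ 2 / 16384

/-- the data for the contradiction: a process whose words of length `m` along the primes are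
mostly in a code -/
structure Vx where
  X : Type
  [mX : MeasurableSpace X]
  [sX : StandardBorelSpace X]
  μ : Measure X
  [pμ : IsProbabilityMeasure μ]
  T : X ≃ᵐ X
  erg : Ergodic T μ
  q : ℕ
  a : X → Fin q
  am : Measurable a
  np : ∀ r : ℕ, 0 < r → ∃ j : ℕ, 1 / 1000 < μ.real {x | a (T^[r * j] x) ≠ a x}
  U : Ultrafilter ℕ
  hU : (U : Filter ℕ) ≤ atTop
  s : ℕ → ℝ
  sv : ∀ p, s p = 0 ∨ s p = 1
  γ : ℝ
  γ0 : 0 < γ
  hγ : γ ≤ ds U s
  m : ℕ
  m0 : 0 < m
  I : Finset (Fin m)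
  hI : m ≤ 2 * I.card
  Bad : ℕ → Set (Fin m → Fin q)
  code : ∀ p, CodeI I (Bad p)
  rel : La U s μ T a Bad Set.univ ≤ γ ^ 4 / 10 ^ 9

namespace Vx

variable (c : Vx)

instance : MeasurableSpace c.X := c.mX
instance : StandardBorelSpace c.X := c.sX
instance : IsProbabilityMeasure c.μ := c.pμ

/-- the upper end of the gap of the mismatch frequencies -/
noncomputable def uh : ℝ := 2 * kp c.γ / c.m

/-- the lower end of the gap -/
noncomputable def ulo : ℝ := 8 * (c.γ ^ 4 / 10 ^ 9) / (c.γ * c.m)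

open Classical in
/-- mismatch of the symbols of two points -/
noncomputable def mm (p : c.X × c.X) : ℝ := if c.a p.1 = c.a p.2 then 0 else 1

/-- the frequency of the mismatches of two points -/
noncomputable def M (p : c.X × c.X) : ℝ := limsup (fun n => Av (TT c.T) 1 n c.mm p) atTop

/-- pairs of close points -/
def Ec : Set (c.X × c.X) := {p | c.M p ≤ c.ulo}

/-- close pairs have positive mass in the relatively independent self-joining -/
def CP (Z : SA c.X) : Prop := 0 < (JJ c.μ Z).real c.Ec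

/-- the conditional probability of the symbol `b` -/
noncomputable def wt (Z : SA c.X) (b : Fin c.q) (x : c.X) : ℝ :=
  (c.μ[(c.a ⁻¹' {b}).indicator (fun _ => (1 : ℝ)) | Z.1]) x

/-- the conditional probability of a mismatch -/
noncomputable def vv (Z : SA c.X) (x : c.X) : ℝ := max 0 (min 1 (1 - ∑ b, c.wt Z b x ^ 2))

/-- the word of length `Λ` at consecutive times -/
def wd (Λ : ℕ) (x : c.X) : Fin Λ → Fin c.q := fun l => c.a (c.T^[(l : ℕ)] x)

open Classical in
/-- the frequency of the mismatches of two words -/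
noncomputable def hd {Λ : ℕ} (v w : Fin Λ → Fin c.q) : ℝ :=
  ((univ.filter fun l => v l ≠ w l).card : ℝ) / Λ

open Classical in
/-- the first reference which is near to a reference which is close to the last point -/
noncomputable def sel (Λ n : ℕ) (p : XX c.X (n + 1)) : Fin (n + 1) :=
  if h : (univ.filter fun b => ∃ b₁, c.hd (c.wd Λ (p.2.1 b)) (c.wd Λ (p.2.1 b₁)) ≤ c.uh / 2 ∧
      c.hd (c.wd Λ (p.2.1 b₁)) (c.wd Λ p.2.2) ≤ 2 * c.ulo).Nonempty then
    (univ.filter fun b => ∃ b₁, c.hd (c.wd Λ (p.2.1 b)) (c.wd Λ (p.2.1 b₁)) ≤ c.uh / 2 ∧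
      c.hd (c.wd Λ (p.2.1 b₁)) (c.wd Λ p.2.2) ≤ 2 * c.ulo).min' h else 0

/-- no reference is close to the last point -/
def NF (Λ n : ℕ) : Set (XX c.X (n + 1)) :=
  {p | ∀ b, 2 * c.ulo < c.hd (c.wd Λ (p.2.1 b)) (c.wd Λ p.2.2)}

/-- the average of the mismatches of the pair `p` in the window `[l, l + n)` -/
noncomputable def wa (l n : ℕ) (p : c.X × c.X) : ℝ := Av (TT c.T) 1 n c.mm ((TT c.T)^[l] p)

/-- for some pair of references the average of the mismatches in a window differs from the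
frequency, or the frequency is in the gap -/
def FE (Λ l n : ℕ) : Set (XX c.X (n + 1)) :=
  {p | ∃ a b, a ≠ b ∧ (c.ulo < |c.wa 0 Λ (p.2.1 a, p.2.1 b) - c.M (p.2.1 a, p.2.1 b)| ∨
    c.ulo < |c.wa l (Λ - l) (p.2.1 a, p.2.1 b) - c.M (p.2.1 a, p.2.1 b)| ∨
    c.ulo < |c.wa l Λ (p.2.1 a, p.2.1 b) - c.M (p.2.1 a, p.2.1 b)| ∨
    (c.ulo < c.M (p.2.1 a, p.2.1 b) ∧ c.M (p.2.1 a, p.2.1 b) ≤ c.uh))}

end Vx

/-! ### the switching lemma -/

/-- the reference system -/
structure Sv where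
  q : ℕ
  n : ℕ
  m : ℕ
  m0 : 0 < m
  I : Finset (Fin m)
  hI : m ≤ 2 * I.card
  U : Ultrafilter ℕ
  hU : (U : Filter ℕ) ≤ atTop
  s : ℕ → ℝ
  sv : ∀ p, s p = 0 ∨ s p = 1
  γ : ℝ
  γ0 : 0 < γ
  hγ : γ ≤ ds U s
  Bad : ℕ → Set (Fin m → Fin q)
  code : ∀ p, CodeI I (Bad p)
  Ω' : Type
  [mΩ' : MeasurableSpace Ω']
  P' : Measure Ω'
  [pP' : IsProbabilityMeasure P']
  T' : Ω' ≃ᵐ Ω'
  mp' : MeasurePreserving T' P' P'
  y : Fin n → Ω' → Fin q
  ym : ∀ b, Measurable (y b)

namespace Sv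

variable (d : Sv)

instance : MeasurableSpace d.Ω' := d.mΩ'
instance : IsProbabilityMeasure d.P' := d.pP'

/-- the threshold -/
noncomputable def ps : ℝ := kp d.γ / (2 * d.m)

open Classical in
/-- the word with the reference `j i` at the place `i` is bad -/
noncomputable def FF (p : ℕ) (j : Fin d.m → Fin d.n) (ω : d.Ω') : ℝ :=
  if (fun i => d.y (j i) (d.T'^[p * ((i : ℕ) + 1)] ω)) ∈ d.Bad p then 1 else 0

end Sv

/-- an extension of the reference system with a selection of a reference -/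
structure SvE (d : Sv) where
  Ω : Type
  [mΩ : MeasurableSpace Ω]
  P : Measure Ω
  [pP : IsProbabilityMeasure P]
  T : Ω ≃ᵐ Ω
  mp : MeasurePreserving T P P
  g : Ω → d.Ω'
  fac : Fac P T d.P' d.T' g
  s : Ω → Fin d.n
  sm : Measurable s

namespace SvE

variable {d : Sv} (e : SvE d)

instance : MeasurableSpace e.Ω := e.mΩ
instance : IsProbabilityMeasure e.P := e.pP

/-- the symbol of the reference which is selected at the time `t` -/
def yt (t : ℕ) (ω : e.Ω) : Fin d.q := d.y (e.s (e.T^[t] ω)) (e.g ω)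

/-- the symbol of the selected reference -/
def ys (ω : e.Ω) : Fin d.q := d.y (e.s ω) (e.g ω)

/-- the symbol of the reference `b` -/
def yb (b : Fin d.n) (ω : e.Ω) : Fin d.q := d.y b (e.g ω)

open Classical in
/-- the selection changes between the times `0` and `l` -/
noncomputable def mv (l : ℕ) (ω : e.Ω) : ℝ := if e.s (e.T^[l] ω) = e.s ω then 0 else 1

/-- the defect of the asymptotic invariance of the bad words, on the set `A` -/
noncomputable def E2 (L : ℕ) (A : Set e.Ω) : ℝ :=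
  ∑ j : Fin d.m → Fin d.n, ul (hyperfilter ℕ) fun L'' => ul d.U fun m =>
    avgP 2 m fun p => d.s p *
      ∫ ω in A, |Av d.T' 1 L (d.FF p j) (e.g ω) - Av d.T' 1 L'' (d.FF p j) (e.g ω)| ∂e.P

/-- all the defects, on the set `A` -/
noncomputable def EE (L : ℕ) (A : Set e.Ω) : ℝ :=
  2 * La d.U d.s e.P e.T e.ys d.Bad A +
  2 * (d.m : ℝ) / (L : ℝ) * ∑ l ∈ range L, ∫ ω in A, e.mv l ω ∂e.P + e.E2 L A

end SvE

end Pool.Agent.H83.V
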