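import Pool.Agent.H83.V.Defs

/-!
Theorem V: targets for section 4 of `H83_V.md` (the switching lemma).
-/

set_option autoImplicit false

open MeasureTheory ProbabilityTheory Filter Topology Finset
open scoped Nat ENNReal

namespace Pool.Agent.H83.V

open Pool.Agent.H24.T2 (Pset)
open Pool.Agent.H67.AG (avgP ul Inv Rt Av SA kap JJ TT InvZ nxt triv tow XN PN TN XX PX TX prX Fac)
open Pool.Agent.H28.LF (Wd La Cd dm ds)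

/-- Y1: the bad words are asymptotically invariant in mean square (as `T_X1`). -/
def T_Y1 : Prop := ∀ (d : Sv) (ε : ℝ) (L₀ : ℕ), 0 < ε → ∃ L : ℕ, L₀ ≤ L ∧ 0 < L ∧
  ∀ L'' : ℕ, L ≤ L'' → ∀ j : Fin d.m → Fin d.n,
    ul d.U (fun m => avgP 2 m fun p => d.s p *
      ∫ ω, (Av d.T' 1 L (d.FF p j) ω - Av d.T' 1 L'' (d.FF p j) ω) ^ 2 ∂d.P') ≤ ε

/-- Y2: the frequency of the bad words for the shifted selection (as `T_X2`). -/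
def T_Y2 : Prop := ∀ (d : Sv) (e : SvE d) (L t : ℕ) (A : Set e.Ω), 0 < L →
  MeasurableSet[Inv e.T 1] A →
  La d.U d.s e.P e.T (e.yt t) d.Bad A ≤ La d.U d.s e.P e.T e.ys d.Bad A +
    2 * (d.m : ℝ) / (L : ℝ) * ∑ l ∈ range L, ∫ ω in A, e.mv l ω ∂e.P + e.E2 L A

/-- Y3: the crossing inequality (from `T_PGV` and `T_Y2`). -/
def T_Y3 : Prop := ∀ (d : Sv) (e : SvE d) (L t : ℕ) (B : Set e.Ω), 0 < L →
  MeasurableSet[Inv e.T 1] B →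
  (∀ᵐ ω ∂e.P, ω ∈ B → d.ps < (e.P[dm e.ys (e.yt t) | Inv e.T 1]) ω ∧
    (e.P[dm e.ys (e.yt t) | Inv e.T 1]) ω ≤ 11 / 10 * d.ps) →
  7 / 32 * d.γ * kp d.γ * e.P.real B ≤ e.EE L B

/-- Y4: the bound is additive, the steps are small (as `T_X6b`). -/
def T_Y4 : Prop := ∀ (d : Sv) (e : SvE d) (L : ℕ), 0 < L →
  (∀ B, MeasurableSet[Inv e.T 1] B → 0 ≤ e.EE L B) ∧
  (∀ B B', MeasurableSet[Inv e.T 1] B → MeasurableSet[Inv e.T 1] B' → Disjoint B B' →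
    e.EE L (B ∪ B') = e.EE L B + e.EE L B') ∧
  (∀ᵐ ω ∂e.P, (e.P[dm e.ys (e.yt 0) | Inv e.T 1]) ω = 0) ∧
  ∀ t, ∀ᵐ ω ∂e.P, |(e.P[dm e.ys (e.yt (t + 1)) | Inv e.T 1]) ω -
    (e.P[dm e.ys (e.yt t) | Inv e.T 1]) ω| ≤ (e.P[e.mv 1 | Inv e.T 1]) ω

/-- Y5: average over the shift. -/
def T_Y5 : Prop := ∀ (d : Sv) (e : SvE d), ∀ᵐ ω ∂e.P,
  (∀ t, (e.P[dm e.ys (e.yt t) | Inv e.T 1]) ω ≤ d.ps) →
    ∃ b, (e.P[dm e.ys (e.yb b) | Inv e.T 1]) ω ≤ d.ps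

/-- Y6: the parameters. `η` does not depend on the reference system `d`. -/
def T_Y6 : Prop := ∀ (m : ℕ) (γ ε : ℝ), 0 < m → 0 < γ → 0 < ε →
  ∃ η : ℝ, 0 < η ∧ ∀ d : Sv, d.m = m → d.γ = γ →
    ∃ L L₁ : ℕ, 0 < L ∧ ∀ e : SvE d,
      (∀ l ≤ L₁, e.P.real {ω | e.s (e.T^[l] ω) ≠ e.s ω} ≤ η) →
      e.EE L Set.univ ≤ 2 * La d.U d.s e.P e.T e.ys d.Bad Set.univ + ε ∧
      e.P.real {ω | d.ps / 10 < (e.P[e.mv 1 | Inv e.T 1]) ω} ≤ ε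

/-- YSW: the switching lemma. `η` does not depend on the reference system `d`. -/
def T_YSW : Prop := ∀ (m : ℕ) (γ ε : ℝ), 0 < m → 0 < γ → 0 < ε →
  ∃ η : ℝ, 0 < η ∧ ∀ d : Sv, d.m = m → d.γ = γ →
    ∃ L₁ : ℕ, ∀ e : SvE d,
      (∀ l ≤ L₁, e.P.real {ω | e.s (e.T^[l] ω) ≠ e.s ω} ≤ η) →
      e.P.real {ω | ∀ b, d.ps < (e.P[dm e.ys (e.yb b) | Inv e.T 1]) ω} ≤
        10 / (d.γ * kp d.γ) * La d.U d.s e.P e.T e.ys d.Bad Set.univ + ε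

end Pool.Agent.H83.V
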