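import Pool.Agent.H83.V.T1
import Pool.Agent.H83.V.T2

/-!
Theorem V: targets for the sections 5 and 6 of `H83_V.md` (the descent, the end).
-/

set_option autoImplicit false

open MeasureTheory ProbabilityTheory Filter Topology Finset
open scoped Nat ENNReal

namespace Pool.Agent.H83.V

open Pool.Agent.H24.T2 (Pset)
open Pool.Agent.H67.AG (avgP ul Inv Rt Av SA kap JJ TT InvZ nxt triv tow XN PN TN XX PX TX prX Fac)
open Pool.Agent.H40.AG (QQ dg)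
open Pool.Agent.H28.LF (Wd La Cd dm ds)

/-- W1: the mass of the close points is constant (as `T_D1`). -/
def T_W1 : Prop := ∀ (c : Vx) (Z : SA c.X), InvZ c.T Z → c.CP Z →
  ∃ c₀ : ℝ, 0 < c₀ ∧ c₀ ≤ 1 ∧ ∀ᵐ x ∂c.μ, c₀ ≤ (kap c.μ Z x).real {x' | (x', x) ∈ c.Ec}

/-- W2: in long windows the average of the mismatches is close to the frequency. -/
def T_W2 : Prop := ∀ (c : Vx) (Z : SA c.X) (θ : ℝ), InvZ c.T Z → 0 < θ →
  ∃ Λ₀ : ℕ, ∀ Λ, Λ₀ ≤ Λ → ∀ l : ℕ,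
    (JJ c.μ Z).real {p | c.ulo < |c.wa l Λ p - c.M p|} ≤ θ

/-- W3: choice of the law of the nearby points (as `T_D3`). -/
def T_W3 : Prop := ∀ (c : Vx) (Z : SA c.X) (Λ : ℕ) (θ : ℝ), InvZ c.T Z → 0 < θ →
  ∃ R : Measure (c.X × c.X), IsProbabilityMeasure R ∧ MeasurePreserving (TT c.T) R R ∧
    R ≪ JJ c.μ Z ∧ MeasurePreserving Prod.fst R c.μ ∧ MeasurePreserving Prod.snd R c.μ ∧
    ∫ q, ∑ v, |(kap c.μ (nxt c.μ c.T Z) q.1).real (c.wd Λ ⁻¹' {v}) -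
      (kap c.μ (nxt c.μ c.T Z) q.2).real (c.wd Λ ⁻¹' {v})| ∂(R) ≤ θ

/-- W4: a reference close to the last point is found (as `T_D4`; from `T_RPC`, `T_NCO`,
`T_PXL`). -/
def T_W4 : Prop := ∀ (c : Vx) (Z : SA c.X) (c₀ : ℝ) (Λ n : ℕ)
  (R : Measure (c.X × c.X)) [IsProbabilityMeasure R] (θ θ' : ℝ), InvZ c.T Z → 0 < Λ →
  0 < c₀ → c₀ ≤ 1 → (∀ᵐ x ∂c.μ, c₀ ≤ (kap c.μ Z x).real {x' | (x', x) ∈ c.Ec}) →
  MeasurePreserving Prod.fst R c.μ → MeasurePreserving Prod.snd R c.μ →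
  ∫ q, ∑ v, |(kap c.μ Z q.1).real (c.wd Λ ⁻¹' {v}) -
    (kap c.μ Z q.2).real (c.wd Λ ⁻¹' {v})| ∂(R) ≤ θ →
  (JJ c.μ Z).real {p | c.ulo < |c.wa 0 Λ p - c.M p|} ≤ θ' →
  (PX c.μ Z (n + 1) R).real (c.NF Λ n) ≤ (1 - c₀) ^ (n + 1) + ((n : ℝ) + 1) * θ' + θ

/-- W5: the averages of the mismatches of the pairs of references are good, with high
probability. -/
def T_W5 : Prop := ∀ (c : Vx) (Z : SA c.X) (Λ l n : ℕ) (R : Measure (c.X × c.X))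
  [IsProbabilityMeasure R] (θ : ℝ), InvZ c.T Z →
  MeasurePreserving Prod.fst R c.μ → MeasurePreserving Prod.snd R c.μ →
  (JJ c.μ Z).real {p | c.ulo < |c.wa 0 Λ p - c.M p|} ≤ θ →
  (JJ c.μ Z).real {p | c.ulo < |c.wa l (Λ - l) p - c.M p|} ≤ θ →
  (JJ c.μ Z).real {p | c.ulo < |c.wa l Λ p - c.M p|} ≤ θ →
  (PX c.μ Z (n + 1) R).real (c.FE Λ l n) ≤ 3 * ((n : ℝ) + 1) ^ 2 * θ

/-- W6: the selection changes slowly. -/
def T_W6 : Prop := ∀ (c : Vx) (Λ l n : ℕ) (P : Measure (XX c.X (n + 1)))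
  [IsProbabilityMeasure P], MeasurePreserving (TX c.T (n + 1)) P P → 0 < Λ → 2 * l ≤ Λ →
  Measurable (c.sel Λ n) ∧
  P.real {p | c.sel Λ n ((TX c.T (n + 1))^[l] p) ≠ c.sel Λ n p} ≤
    2 * P.real (c.NF Λ n) + P.real (c.FE Λ l n)

/-- W7: the selected reference has mostly the symbol of the last point. -/
def T_W7 : Prop := ∀ (c : Vx) (Λ n : ℕ) (P : Measure (XX c.X (n + 1)))
  [IsProbabilityMeasure P] (ζ : ℝ), MeasurePreserving (TX c.T (n + 1)) P P → 0 < Λ →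
  (∀ l, 2 * l ≤ Λ →
    P.real {p | c.sel Λ n ((TX c.T (n + 1))^[l] p) ≠ c.sel Λ n p} ≤ ζ) →
  P.real (c.NF Λ n) ≤ ζ → P.real (c.FE Λ 0 n) ≤ ζ →
  P.real {p | c.a (p.2.1 (c.sel Λ n p)) ≠ c.a p.2.2} ≤ 8 * c.ulo + 5 * ζ

/-- W8: the switching lemma for the references (from `T_YSW`; the reference system is
`XN c.X (n + 1)`, `PN`, `TN`, with `y b = a (x_b)`). `η` does not depend on `Z` and `n`. -/
def T_W8 : Prop := ∀ (c : Vx) (ε : ℝ), 0 < ε →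
  ∃ η : ℝ, 0 < η ∧ ∀ (Z : SA c.X) (n : ℕ), InvZ c.T Z → ∃ L₁ : ℕ,
    ∀ (Λ : ℕ) (R : Measure (c.X × c.X)) [IsProbabilityMeasure R],
      MeasurePreserving Prod.fst R c.μ → MeasurePreserving Prod.snd R c.μ →
      MeasurePreserving (TT c.T) R R →
      (∀ l ≤ L₁, (PX c.μ Z (n + 1) R).real
        {p | c.sel Λ n ((TX c.T (n + 1))^[l] p) ≠ c.sel Λ n p} ≤ η) →
      (PX c.μ Z (n + 1) R).real {p | ∀ b : Fin (n + 1), kp c.γ / (2 * c.m) <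
        ((PX c.μ Z (n + 1) R)[dm (fun p : XX c.X (n + 1) => c.a (p.2.1 (c.sel Λ n p)))
          (fun p => c.a (p.2.1 b)) | Inv (TX c.T (n + 1)) 1]) p} ≤
        10 / (c.γ * kp c.γ) * La c.U c.s (PX c.μ Z (n + 1) R) (TX c.T (n + 1))
          (fun p => c.a (p.2.1 (c.sel Λ n p))) c.Bad Set.univ + ε

/-- W9: the last step of the descent. -/
def T_W9 : Prop := ∀ (c : Vx) (Z : SA c.X) (n Λ : ℕ) (R : Measure (c.X × c.X))
  [IsProbabilityMeasure R], InvZ c.T Z → InvZ c.T (nxt c.μ c.T Z) → 0 < Λ →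
  MeasurePreserving (TT c.T) R R → R ≪ JJ c.μ Z → MeasurePreserving Prod.fst R c.μ →
  MeasurePreserving Prod.snd R c.μ →
  (PX c.μ (nxt c.μ c.T Z) (n + 1) R).real
    {p | c.a (p.2.1 (c.sel Λ n p)) ≠ c.a p.2.2} ≤ 10 * c.ulo →
  (PX c.μ (nxt c.μ c.T Z) (n + 1) R).real {p | ∀ b : Fin (n + 1), kp c.γ / (2 * c.m) <
    ((PX c.μ (nxt c.μ c.T Z) (n + 1) R)[dm
      (fun p : XX c.X (n + 1) => c.a (p.2.1 (c.sel Λ n p)))
      (fun p => c.a (p.2.1 b)) | Inv (TX c.T (n + 1)) 1]) p} ≤ 1 / 2 →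
  c.CP Z

/-- DSV: the descent. -/
def T_DSV : Prop := ∀ (c : Vx) (Z : SA c.X), InvZ c.T Z → c.CP (nxt c.μ c.T Z) → c.CP Z

/-- ENV: the last step. -/
def T_ENV : Prop := ∀ c : Vx, ¬ c.CP (triv c.X)

/-- ERV: there are no data. -/
theorem erv_of (h1 : T_TOPV) (h2 : T_DSV) (h3 : T_ENV) (hT : Pool.Agent.H67.AG.T_TW) :
    IsEmpty Vx := by
  refine ⟨fun c => ?_⟩
  have key : ∀ j : ℕ, j ≤ c.m → c.CP (tow c.μ c.T (c.m - j)) := by
    intro j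
    induction j with
    | zero => intro _; exact h1 c
    | succ j ih =>
      intro hj
      have h := ih (by omega)
      have e : c.m - j = (c.m - (j + 1)) + 1 := by omega
      rw [e, Pool.Agent.H67.AG.tow_succ] at h
      exact h2 c _ (hT c.X c.μ c.T c.erg _) h
  have h0 := key c.m le_rfl
  rw [Nat.sub_self, Pool.Agent.H67.AG.tow_zero] at h0
  exact h3 c h0

end Pool.Agent.H83.V
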