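import Pool.Agent.H83.V.BK
import Pool.Agent.H83.V.T3
import Pool.Agent.H67.AG.AllF
import Pool.Agent.H24.UG.AllU
import Pool.Agent.H35.V.GAP
import Pool.Agent.H56.V.NUM
import Pool.Agent.H54.V.PGV
import Pool.Agent.H19.V.PIRV
import Pool.Agent.H19.V.PWV
import Pool.Agent.H67.V.CPV
import Pool.Agent.H60.V.JVV
import Pool.Agent.H7.V.P3V
import Pool.Agent.H72.V.RSV
import Pool.Agent.H38.V.TOPV
import Pool.Agent.H60.V.Y1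
import Pool.Agent.H4.V.Y2
import Pool.Agent.H11.V.Y4
import Pool.Agent.H66.V.Y5
import Pool.Agent.H10.V.Y6
import Pool.Agent.H1.V.YSW
import Pool.Agent.H74.V.DSV
import Pool.Agent.H96.V.W1
import Pool.Agent.H84.V.W2
import Pool.Agent.H82.V.W3
import Pool.Agent.H79.V.W4
import Pool.Agent.H96.V.W7
import Pool.Agent.H5.V.W8
import Pool.Agent.H6.V.W9
import Pool.Agent.H56.LF.LAB
import Pool.Agent.H19.LF.LAF
import Pool.Agent.H19.LF.X5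
import Pool.Agent.H78.LF.STC
import Pool.Agent.H78.LF.CDB
import Pool.Agent.H21.LF.STX
import Pool.Agent.H35.LF.SPM
import Pool.Agent.H32.LF.EXI
import Pool.Agent.H32.LF.CND
import Pool.Agent.H68.LF.EXR

/-!
Theorem V: the ergodic part, closed.
-/

set_option autoImplicit false

namespace Pool.Agent.H83.V

open Pool.Agent.H67.AG.AllF

theorem v_BK : Pool.Agent.H40.AG.T_BK := BK.pf_BK c_ME

theorem v_LAB : Pool.Agent.H28.LF.T_LAB := Pool.Agent.H56.LF.LAB.pf_LAB c_UL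
theorem v_LAF : Pool.Agent.H28.LF.T_LAF := Pool.Agent.H19.LF.pf_LAF
theorem v_CDB : Pool.Agent.H28.LF.T_CDB := Pool.Agent.H78.LF.pf_CDB c_UL
theorem v_SPM : Pool.Agent.H28.LF.T_SPM := Pool.Agent.H35.LF.pf_SPM c_HER c_ME
theorem v_EXI : Pool.Agent.H28.LF.T_EXI := Pool.Agent.H32.LF.pf_EXI c_VPR c_VDY
theorem v_EXR : Pool.Agent.H28.LF.T_EXR := Pool.Agent.H68.LF.pf_EXR c_VEC c_VDY
theorem v_STX : Pool.Agent.H28.LF.T_STX :=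
  Pool.Agent.H21.LF.pf_STX v_SPM v_EXI v_EXR v_CDB c_UL c_PN
theorem v_STC : Pool.Agent.H28.LF.T_STC := Pool.Agent.H78.LF.pf_STC v_STX
theorem v_CND : Pool.Agent.H28.LF.T_CND := Pool.Agent.H32.LF.pf_CND
theorem v_X5 : Pool.Agent.H28.LF.T_X5 := Pool.Agent.H19.LF.pf_X5

theorem v_PWV : T_PWV := Pool.Agent.H19.V.pf_PWV
theorem v_PIRV : T_PIRV := Pool.Agent.H19.V.pf_PIRV v_PWV c_UL
theorem v_PGV : T_PGV := Pool.Agent.H54.V.pf_PGV v_PIRV v_STC v_LAB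
theorem v_NUM : T_NUM := Pool.Agent.H56.V.pf_NUM v_LAB
theorem v_CPV : T_CPV := Pool.Agent.H67.V.pf_CPV v_PWV
theorem v_P3V : T_P3V := Pool.Agent.H7.V.pf_P3V Pool.Agent.H24.UG.AllU.u_UP3 c_UL
theorem v_RSV : T_RSV := Pool.Agent.H72.V.pf_RSV v_P3V v_CPV c_UL
theorem v_JVV : T_JVV := Pool.Agent.H60.V.pf_JVV c_J1
theorem v_Y1 : T_Y1 := Pool.Agent.H60.V.pf_Y1 c_UL
theorem v_Y2 : T_Y2 := Pool.Agent.H4.V.pf_Y2 c_UL
theorem v_Y4 : T_Y4 := Pool.Agent.H11.V.pf_Y4 v_LAB c_UL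
theorem v_Y5 : T_Y5 := Pool.Agent.H66.V.pf_Y5 c_ME
theorem v_Y6 : T_Y6 := Pool.Agent.H10.V.pf_Y6 c_UL v_Y1

theorem v_YSW (h3 : T_Y3) : T_YSW := Pool.Agent.H1.V.pf_YSW v_X5 h3 v_Y4 v_Y5 v_Y6
theorem v_GAP (hM : T_MB) : T_GAP := Pool.Agent.H35.V.pf_GAP v_PGV v_CND v_LAF v_LAB hM v_NUM
theorem v_TOPV (hM : T_MB) : T_TOPV :=
  Pool.Agent.H38.V.pf_TOPV (v_GAP hM) v_RSV v_STC v_JVV hM v_NUM c_J2 c_J3 c_TW
theorem v_W1 (hM : T_MB) : T_W1 := Pool.Agent.H96.V.pf_W1 hM c_J3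
theorem v_W2 (hM : T_MB) : T_W2 := Pool.Agent.H84.V.pf_W2 hM v_NUM c_J2 c_J3 c_ME
theorem v_W3 : T_W3 := Pool.Agent.H82.V.pf_W3 c_AP c_QM
theorem v_W4 : T_W4 := Pool.Agent.H79.V.pf_W4 c_RPC c_NCO c_DGJ c_PXL
theorem v_W5 (hM : T_MB) : T_W5 := Pool.Agent.H84.V.pf_W5 c_PXL c_PNL (v_GAP hM) hM c_J2 c_J3
theorem v_W7 : T_W7 := Pool.Agent.H96.V.pf_W7 v_NUM
theorem v_W8 (h3 : T_Y3) : T_W8 := Pool.Agent.H5.V.pf_W8 (v_YSW h3) c_PNL c_PNT c_PXL c_PXT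
theorem v_W9 (hM : T_MB) : T_W9 :=
  Pool.Agent.H6.V.pf_W9 (v_GAP hM) hM v_NUM c_QQA c_PXF c_PXL c_PXT c_NXI
theorem v_DSV (hM : T_MB) (h3 : T_Y3) (h6 : T_W6) : T_DSV :=
  Pool.Agent.H74.V.pf_DSV v_LAB v_LAF v_NUM (v_W1 hM) (v_W2 hM) v_W3 v_W4 (v_W5 hM) h6 v_W7
    (v_W8 h3) (v_W9 hM) c_NXI c_PXL c_PXT c_PXF

/-- there are no data -/
theorem vx_empty (hM : T_MB) (h3 : T_Y3) (h6 : T_W6) (hE : T_ENV) : IsEmpty Vx :=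
  erv_of (v_TOPV hM) (v_DSV hM h3 h6) hE c_TW

end Pool.Agent.H83.V
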