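import Pool.Agent.H83.V.T3
import Pool.Agent.H28.LF.F1

/-!
Theorem V: definitions for the front end (section 7 of `H83_V.md`).  The `n`-side, the `y`-side and
the labels are those of `Pool.Agent.H28.LF`.
-/

set_option autoImplicit false

open MeasureTheory ProbabilityTheory Filter Topology Finset
open scoped Nat ENNReal

namespace Pool.Agent.H83.V

open Pool.Agent.H24.T2 (Pset)
open Pool.Agent.H28.MCL (ldB Aw)
open Pool.Agent.H67.AG (avgP ul Inv Rt Av)
open Pool.Agent.H28.LF (Wd La Cd dm ds lt ng SS ptS LX Xi LY Yi shX shY lX lY btY flY xiY SysX SysY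
  CompY LwY ExY Wa DcO sY GoodC)

/-! ### patterns and codes -/

/-- the value of a letter: of `λ` for `z = true`, of `μ` for `z = false` -/
def vl (z : Bool) (b : Bool × Bool) : ℤ := if z || b.2 then (if b.1 then 1 else -1) else 0

/-- the pattern `(f(n+1), ..., f(n+m))`, `f = λ` or `μ` -/
noncomputable def pat (z : Bool) (m n : ℕ) : Fin m → ℤ := fun i => vl z (lt (n + i + 1))

/-- no two elements of `G` differ exactly by the sign at one place of `I` -/
def SCode {m : ℕ} (I : Finset (Fin m)) (G : Set (Fin m → ℤ)) : Prop :=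
  ∀ v ∈ G, ∀ w ∈ G, ∀ i ∈ I, v i ≠ 0 → w i = -v i → ∃ j, j ≠ i ∧ v j ≠ w j

open Classical in
/-- for some code `G` at most `η H` of the patterns at `n, ..., n + H - 1` are not in `G` -/
def Gn (z : Bool) (m : ℕ) (I : Finset (Fin m)) (η : ℝ) (H n : ℕ) : Prop :=
  ∃ G : Set (Fin m → ℤ), SCode I G ∧
    (((range H).filter fun h => pat z m (n + h) ∉ G).card : ℝ) ≤ η * H

open Classical in
/-- **Theorem V** for `f`, `m`, `I`, `ρ` -/
def ThmV (z : Bool) (m : ℕ) (I : Finset (Fin m)) (ρ : ℝ) : Prop :=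
  ∃ H₀ : ℕ, ∀ H, H₀ ≤ H → ∃ C : ℕ, ∀ x y : ℕ, 0 < x → C * x ≤ y →
    ∑ n ∈ (Icc x y).filter (fun n => Gn z m I (ρ ^ 4 / 10 ^ 15) H n), (1 : ℝ) / n ≤
      ρ * Real.log ((y : ℝ) / x)

/-! ### labels -/

/-- the patterns of signs -/
def Sg (m : ℕ) : Set (Fin m → ℤ) := {v | ∀ i, v i = -1 ∨ v i = 0 ∨ v i = 1}

/-- number of a pattern -/
def wc {m : ℕ} (v : Fin m → ℤ) : ℕ := ∑ i : Fin m, (v i + 1).toNat * 3 ^ (i : ℕ)

/-- the set of patterns of a label -/
def Gb (m : ℕ) (b : ℕ → Bool) : Set (Fin m → ℤ) := {v | v ∈ Sg m ∧ b (wc v) = true}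

/-- the code of a label -/
def Gd {m : ℕ} (I : Finset (Fin m)) (b : ℕ → Bool) : Set (Fin m → ℤ) :=
  {v | v ∈ Gb m b ∧ SCode I (Gb m b)}

open Classical in
/-- error at `n` for the labels `τ` -/
noncomputable def eN (z : Bool) {m : ℕ} (I : Finset (Fin m)) (τ : ℕ → ℕ → Bool) (n : ℕ) : ℝ :=
  if pat z m n ∈ Gd I (τ n) then 0 else 1

/-- mean of the errors in a window -/
noncomputable def aN (z : Bool) {m : ℕ} (I : Finset (Fin m)) (τ : ℕ → ℕ → Bool) (K n : ℕ) : ℝ :=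
  (∑ k ∈ range K, eN z I τ (n + k)) / K

open Classical in
/-- error at a point of the `n`-side -/
noncomputable def eX (z : Bool) {m : ℕ} (I : Finset (Fin m)) (ξ : Xi) : ℝ :=
  if (fun i : Fin m => vl z (ξ ((i : ℤ) + 1)).1) ∈ Gd I (ξ 0).2 then 0 else 1

/-! ### the process on the `y`-side -/

/-- residue data: for the primes `d ≤ w` the first time `< d²` at which the number is divisible
by `d²` -/
abbrev RS (w : ℕ) : Type := Fin (w + 1) → Fin ((w + 1) ^ 2 + 1)

open Classical in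
/-- residue data of a point of the `y`-side -/
noncomputable def rsq (w : ℕ) (ω : Yi) : RS w := fun d =>
  if h : (d : ℕ).Prime ∧ ∃ i : ℕ, i < (d : ℕ) ^ 2 ∧ shY^[i] ω ∈ flY ((d : ℕ) ^ 2) then
    ⟨Nat.find h.2, by
      have h1 := (Nat.find_spec h.2).1
      have h2 : (d : ℕ) ≤ w + 1 := d.2.le
      have h3 : (d : ℕ) ^ 2 ≤ (w + 1) ^ 2 := Nat.pow_le_pow_left h2 2
      omega⟩
  else 0

/-- the number is not divisible by the squares of the primes `≤ w` -/
def Sup {w : ℕ} (r : RS w) : Prop := ∀ d : Fin (w + 1), (d : ℕ).Prime → (r d : ℕ) ≠ 0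

/-- index of a value -/
def vi (x : ℤ) : Fin 3 := if x = -1 then 0 else if x = 0 then 1 else 2

/-- value of an index -/
def iv (k : Fin 3) : ℤ := (k : ℤ) - 1

/-- the alphabet -/
abbrev Al (w : ℕ) : Type := Fin 3 × RS w

/-- the number of letters of the alphabet -/
noncomputable def qw (w : ℕ) : ℕ := Fintype.card (Al w)

/-- enumeration of the alphabet -/
noncomputable def en (w : ℕ) : Al w ≃ Fin (qw w) := Fintype.equivFin (Al w)

/-- the process -/
noncomputable def aY (z : Bool) (w : ℕ) (ω : Yi) : Fin (qw w) :=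
  en w (vi (vl z (btY ω)), rsq w ω)

/-- good words for the prime `p` and the label `b` (values on the `y`-side are the negatives of the
values on the `n`-side) -/
def GoodV (z : Bool) {m : ℕ} (I : Finset (Fin m)) (w p : ℕ) (b : ℕ → Bool)
    (v : Fin m → Al w) : Prop :=
  (∀ i j : Fin m, ∀ d : Fin (w + 1), (d : ℕ).Prime → ((v i).2 d : ℕ) < (d : ℕ) ^ 2 ∧
    ((v i).2 d : ℕ) + p * ((i : ℕ) + 1) ≡ ((v j).2 d : ℕ) + p * ((j : ℕ) + 1)
      [MOD (d : ℕ) ^ 2]) ∧
  (∀ i : Fin m, ∀ d : Fin (w + 1), ¬ (d : ℕ).Prime → (v i).2 d = 0) ∧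
  (∀ i : Fin m, (iv (v i).1 ≠ 0 ↔ z = true ∨ Sup (v i).2)) ∧
  (fun i => -iv (v i).1) ∈ Gd I b

/-- the bad words -/
def BadV (z : Bool) {m : ℕ} (I : Finset (Fin m)) (w : ℕ) (lb : ℕ → ℕ → Bool) (p : ℕ) :
    Set (Fin m → Fin (qw w)) :=
  {v | ¬ GoodV z I w p (lb p) fun i => (en w).symm (v i)}

end Pool.Agent.H83.V
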