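import Pool.Agent.H83.V.FDV

/-!
Theorem V: targets for the front end (section 7 of `H83_V.md`).
-/

set_option autoImplicit false

open MeasureTheory ProbabilityTheory Filter Topology Finset
open scoped Nat ENNReal

namespace Pool.Agent.H83.V

open Pool.Agent.H24.T2 (Pset)
open Pool.Agent.H28.MCL (ldB Aw)
open Pool.Agent.H67.AG (avgP ul Inv Rt Av)
open Pool.Agent.H28.LF (Wd La Cd dm ds lt ng SS ptS LX Xi LY Yi shX shY lX lY btY flY xiY SysX SysY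
  CompY LwY ExY Wa DcO sY GoodC)

/-! ### windows and labels -/

/-- GDL: the codes of the labels. -/
def T_GDL : Prop := ∀ (m : ℕ) (I : Finset (Fin m)), (∀ b, SCode I (Gd I b)) ∧
  (∀ b, Gd I b ⊆ Sg m) ∧
  (∀ G : Set (Fin m → ℤ), SCode I G → ∃ b : ℕ → Bool, (∀ s, 3 ^ m ≤ s → b s = false) ∧
    ∀ v ∈ Sg m, v ∈ G → v ∈ Gd I b) ∧
  ∀ b b' : ℕ → Bool, (∀ s, s < 3 ^ m → b s = b' s) → Gd I b = Gd I b'

open Classical in
/-- VWN: disjoint long windows on which the statement fails (as `T_WIN`). -/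
def T_VWN : Prop := ∀ (z : Bool) (m : ℕ) (I : Finset (Fin m)) (ρ : ℝ), 0 < ρ → ¬ ThmV z m I ρ →
  ∃ H x y : ℕ → ℕ, (∀ j, j < H j) ∧ (∀ j, 0 < x j ∧ x j ≤ y j ∧ y j < x (j + 1)) ∧
    (∀ j : ℕ, (j : ℝ) * H j ≤ Real.log ((y j : ℝ) / x j)) ∧
    ∀ j, 9 / 10 * ρ * Real.log ((y j : ℝ) / x j) ≤
      ∑ n ∈ (Icc (x j) (y j)).filter (fun n => Gn z m I (ρ ^ 4 / 10 ^ 15) (H j) n), (1 : ℝ) / n

open Classical in
/-- VBL: labels on one window (as `T_WBL`). -/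
def T_VBL : Prop := ∀ (z : Bool) (m : ℕ) (I : Finset (Fin m)) (η : ℝ) (H x y : ℕ), 0 ≤ η →
  0 < H → 0 < x → x ≤ y → ∃ τ : ℕ → ℕ → Bool,
    ∑ n ∈ (Icc x y).filter (fun n => τ n ≠ τ (n + 1)), (1 : ℝ) / n ≤
      1 + Real.log ((y : ℝ) / x) / H ∧
    ∀ K : ℕ, 0 < K → (∑ n ∈ (Icc x y).filter (fun n => Gn z m I η H n), (1 : ℝ) / n) / 2 ≤
      ∑ n ∈ (Icc x y).filter (fun n => aN z I τ K n ≤ 2 * η), (1 : ℝ) / n +
        2 * H + K * (1 + Real.log ((y : ℝ) / x) / H)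

/-- VLB: the labels (as `T_LBL`). -/
def T_VLB : Prop := ∀ (z : Bool) (m : ℕ) (I : Finset (Fin m)) (ρ : ℝ), 0 < ρ → ¬ ThmV z m I ρ →
  ∃ (U : Ultrafilter ℕ) (x y : ℕ → ℕ) (τ : ℕ → ℕ → Bool), Aw U x y ∧
    ldB U x y {n | τ n ≠ τ (n + 1)} = 0 ∧
    ∀ K : ℕ, 0 < K → ρ / 4 ≤ ldB U x y {n | aN z I τ K n ≤ 2 * (ρ ^ 4 / 10 ^ 15)}

/-! ### the `n`-side -/

/-- VSX: the measure on the `n`-side (as `T_SYX`; from `T_SHP`). -/
def T_VSX : Prop := ∀ (z : Bool) (m : ℕ) (I : Finset (Fin m)) (ρ η : ℝ) (U : Ultrafilter ℕ)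
  (x y : ℕ → ℕ) (τ : ℕ → ℕ → Bool), Aw U x y → ldB U x y {n | τ n ≠ τ (n + 1)} = 0 →
  (∀ K : ℕ, 0 < K → ρ ≤ ldB U x y {n | aN z I τ K n ≤ η}) →
  ∃ PX : Measure Xi, SysX (fun _ => 1) 0 PX ∧
    (∀ C : Set Xi, IsClopen C → PX.real C = ldB U x y {n | ptS (lX τ) n ∈ C}) ∧
    ∀ K : ℕ, 0 < K → ρ ≤ PX.real {ξ | Av shX 1 K (eX z I) ξ ≤ η}

/-- VFX: the invariant set of the `n`-side (from `T_BK`). -/
def T_VFX : Prop := ∀ (z : Bool) (m : ℕ) (I : Finset (Fin m)) (ρ η : ℝ) (PX : Measure Xi)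
  [IsProbabilityMeasure PX], MeasurePreserving shX PX PX → 0 < η →
  (∀ K : ℕ, 0 < K → ρ ≤ PX.real {ξ | Av shX 1 K (eX z I) ξ ≤ η}) →
  ∃ F : Set Xi, MeasurableSet F ∧ shX ⁻¹' F = F ∧ ρ ≤ PX.real F ∧
    ∀ ν : Measure Xi, IsProbabilityMeasure ν → MeasurePreserving shX ν ν → ν.real F = 1 →
      ∫ ξ, eX z I ξ ∂ν ≤ 3 / 2 * η

/-! ### components -/

/-- VER: the errors on the multiples of a prime with a flag (from `T_DVS`, `T_TPL`). -/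
def T_VER : Prop := ∀ (z : Bool) (m : ℕ) (I : Finset (Fin m)) (η : ℝ) (F : Set Xi)
  (ν : Measure Yi), CompY ν → MeasurableSet F →
  (∀ ν' : Measure Xi, IsProbabilityMeasure ν' → MeasurePreserving shX ν' ν' → ν'.real F = 1 →
    ∫ ξ, eX z I ξ ∂ν' ≤ η) →
  ∀ p : ℕ, p.Prime → ν.real (xiY p ⁻¹' F) = 1 →
    p * ∫ ω in flY p, eX z I (xiY p ω) ∂ν ≤ η

/-- LBV: the label is constant on a component (from `T_THC`). -/
def T_LBV : Prop := ∀ ν : Measure Yi, CompY ν → ∀ p : ℕ, p.Prime →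
  ∃ b : ℕ → Bool, ∀ᵐ ω ∂ν, (xiY p ω 0).2 = b

/-- NPV: the values are far from periodic on a component. -/
def T_NPV : Prop := ∀ (z : Bool) (ν : Measure Yi), CompY ν → ∀ r : ℕ, 0 < r →
  ∃ j : ℕ, 1 / 1000 < ν.real {ω | vl z (btY (shY^[r * j] ω)) ≠ vl z (btY ω)}

/-- RSQ: the residue data. -/
def T_RSQ : Prop := ∀ (w : ℕ) (ν : Measure Yi), CompY ν → Measurable (rsq w) ∧
  ∀ᵐ ω ∂ν, ∀ k : ℕ,
    (∀ d : Fin (w + 1), (d : ℕ).Prime → (rsq w (shY^[k] ω) d : ℕ) < (d : ℕ) ^ 2 ∧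
      (rsq w (shY^[k] ω) d : ℕ) + k ≡ (rsq w ω d : ℕ) [MOD (d : ℕ) ^ 2]) ∧
    ∀ d : Fin (w + 1), ¬ (d : ℕ).Prime → rsq w (shY^[k] ω) d = 0

/-- SUP: the squarefree numbers in terms of the residue data. -/
def T_SUP : Prop := ∀ (w : ℕ) (ν : Measure Yi), 0 < w → CompY ν →
  ν.real {ω | ¬ ((btY ω).2 = true ↔ Sup (rsq w ω))} ≤ 1 / w

/-- VCO: the good words are a code. -/
def T_VCO : Prop := ∀ (z : Bool) (m : ℕ) (I : Finset (Fin m)) (w : ℕ) (lb : ℕ → ℕ → Bool)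
  (p : ℕ), 2 ≤ m → CodeI I (BadV z I w lb p)

/-- the bad words of letters, for the label `b` -/
def PB (z : Bool) {m : ℕ} (I : Finset (Fin m)) (b : ℕ → Bool) : Set (Fin m → Bool × Bool) :=
  {u | (fun i => -vl z (u i)) ∉ Gd I b}

/-- WBV: bad words of the process and bad words of letters (from `T_RSQ`, `T_SUP`). -/
def T_WBV : Prop := ∀ (z : Bool) (m : ℕ) (I : Finset (Fin m)) (w : ℕ) (lb : ℕ → ℕ → Bool) (p : ℕ)
  (ν : Measure Yi), 0 < w → CompY ν →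
  ν.real {ω | Wd shY (aY z w) m p ω ∈ BadV z I w lb p} ≤
    ν.real {ω | Wa shY btY m p ω ∈ PB z I (lb p)} + (m : ℝ) / w

/-- MBV: bad words of letters on the multiples of a prime. -/
def T_MBV : Prop := ∀ (z : Bool) (m : ℕ) (I : Finset (Fin m)) (b : ℕ → Bool) (p : ℕ)
  (ν : Measure Yi), CompY ν → p.Prime → (∀ᵐ ω ∂ν, (xiY p ω 0).2 = b) →
  ν.real (flY p ∩ {ω | Wa shY btY m p ω ∈ PB z I b}) ≤
    ∫ ω in flY p, eX z I (xiY p ω) ∂ν + ∑ j ∈ Icc 1 m, ν.real (flY p ∩ ExY p j)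

/-- RLV: the relation on average over the primes of a good scale (as `T_RLY`; from `T_WBV`,
`T_MBV`). -/
def T_RLV : Prop := ∀ (z : Bool) (m : ℕ) (I : Finset (Fin m)) (w : ℕ) (lb : ℕ → ℕ → Bool)
  (γ₀ η : ℝ) (F : Set Xi) (B : ℕ → Set Xi) (ν : Measure Yi) (i m' : ℕ), 0 < w → CompY ν →
  MeasurableSet F → (∀ p : ℕ, p.Prime → ∀ᵐ ω ∂ν, (xiY p ω 0).2 = lb p) → 0 ≤ η →
  (∀ p : ℕ, p.Prime → ν.real (xiY p ⁻¹' F) = 1 → p * ∫ ω in flY p, eX z I (xiY p ω) ∂ν ≤ η) →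
  m ≤ i → GoodC F B γ₀ ν i m' →
  avgP 2 m' (fun p => sY F ν p * ν.real {ω | Wd shY (aY z w) m p ω ∈ BadV z I w lb p}) ≤
    10 * η + (m : ℝ) / w + 12 / ((i : ℝ) + 1)

/-- VXY: the data (as `T_UXY`; from `T_NPV`, `T_VCO`, `T_RLV`). -/
def T_VXY : Prop := ∀ (z : Bool) (m : ℕ) (I : Finset (Fin m)) (w : ℕ) (lb : ℕ → ℕ → Bool)
  (γ₀ η : ℝ) (F : Set Xi) (B : ℕ → Set Xi) (ν : Measure Yi), 2 ≤ m → m ≤ 2 * I.card → 0 < w →
  0 < γ₀ → 0 ≤ η → 10 * η + (m : ℝ) / w < (γ₀ / 2) ^ 4 / 10 ^ 9 → CompY ν → MeasurableSet F →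
  (∀ p : ℕ, p.Prime → ∀ᵐ ω ∂ν, (xiY p ω 0).2 = lb p) →
  (∀ p : ℕ, p.Prime → ν.real (xiY p ⁻¹' F) = 1 → p * ∫ ω in flY p, eX z I (xiY p ω) ∂ν ≤ η) →
  (∃ᶠ i in atTop, ∃ m', GoodC F B γ₀ ν i m') → Nonempty Vx

/-! ### prediction -/

/-- the value of `λ` or `μ` -/
noncomputable def fz (z : Bool) (n : ℕ) : ℤ := vl z (lt n)

/-- the rule `D` gives the wrong sign of `f(n + k + 1)`, which is not zero, from the `k` values on
the left and the `k` values on the right -/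
def Er (z : Bool) (k : ℕ) (D : (Fin k → ℤ) → (Fin k → ℤ) → ℤ) (n : ℕ) : Prop :=
  fz z (n + k + 1) ≠ 0 ∧
    fz z (n + k + 1) ≠ D (fun j => fz z (n + k - j)) (fun j => fz z (n + k + 2 + j))

open Classical in
/-- some rule is wrong at most `η H` times -/
def Pn (z : Bool) (k : ℕ) (η : ℝ) (H n : ℕ) : Prop :=
  ∃ D : (Fin k → ℤ) → (Fin k → ℤ) → ℤ,
    (((range H).filter fun h => Er z k D (n + h)).card : ℝ) ≤ η * H

open Classical in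
/-- prediction with a small error is impossible -/
def ThmP (z : Bool) (k : ℕ) (ρ : ℝ) : Prop :=
  ∃ H₀ : ℕ, ∀ H, H₀ ≤ H → ∃ C : ℕ, ∀ x y : ℕ, 0 < x → C * x ≤ y →
    ∑ n ∈ (Icc x y).filter (fun n => Pn z k (ρ ^ 4 / (10 ^ 16 * k)) H n), (1 : ℝ) / n ≤
      ρ * Real.log ((y : ℝ) / x)

/-- PRD: prediction (`m = 4 k`, `I` = the places `k, ..., 3 k - 1`, `G` = the patterns for which all
nonzero values at the places of `I` are the values of the rule). -/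
def T_PRD : Prop := ∀ (z : Bool) (k : ℕ) (ρ : ℝ), 0 < k → 0 < ρ →
  (∀ I : Finset (Fin (4 * k)), 4 * k ≤ 2 * I.card → ThmV z (4 * k) I ρ) → ThmP z k ρ

/-- FZV: the values. -/
def T_FZV : Prop := ∀ n : ℕ, 0 < n →
  fz true n = (-1) ^ (ArithmeticFunction.cardFactors n) ∧
  fz false n = ArithmeticFunction.moebius n

end Pool.Agent.H83.V
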