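import Pool.Agent.H83.V.AllV
import Pool.Agent.H83.V.Cov

/-!
Theorem V in terms of Mathlib's functions.
-/

set_option autoImplicit false

open Finset

namespace Pool.Agent.H83.V.Hand

/-- the Liouville function `λ` (`z = true`) or the Möbius function `μ` (`z = false`) -/
def f (z : Bool) (n : ℕ) : ℤ :=
  if z then (-1) ^ ArithmeticFunction.cardFactors n else ArithmeticFunction.moebius n

/-- no two elements of `G` differ exactly by the sign at one place of `I` -/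
def IsCode {m : ℕ} (I : Finset (Fin m)) (G : Set (Fin m → ℤ)) : Prop :=
  ∀ v ∈ G, ∀ w ∈ G, ∀ i ∈ I, ¬ (v i ≠ 0 ∧ w i = -v i ∧ ∀ j, j ≠ i → w j = v j)

theorem f_eq (z : Bool) (n : ℕ) (hn : 0 < n) : f z n = fz z n := by
  cases z
  · simp only [f, (v_FZV n hn).2]
    simp
  · simp only [f, (v_FZV n hn).1]
    simp

theorem code_iff {m : ℕ} {I : Finset (Fin m)} {G : Set (Fin m → ℤ)} (h : IsCode I G) :
    SCode I G := by
  intro v hv w hw i hi h0 h1
  by_contra hcon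
  push Not at hcon
  exact h v hv w hw i hi ⟨h0, h1, fun j hj => (hcon j hj).symm⟩

open Classical in
theorem main (z : Bool) (m : ℕ) (I : Finset (Fin m)) (hI : I.Nonempty) (ρ : ℝ) (hρ : 0 < ρ) :
    ∃ H₀ : ℕ, ∀ H, H₀ ≤ H → ∃ C : ℕ, ∀ x y : ℕ, 0 < x → C * x ≤ y →
      ∑ n ∈ (Icc x y).filter (fun n => ∃ G : Set (Fin m → ℤ), IsCode I G ∧
        (#{h ∈ range H | (fun i : Fin m => f z (n + h + i + 1)) ∉ G} : ℝ) ≤
          ρ ^ 4 * #I / (10 ^ 17 * m) * H), (1 : ℝ) / n ≤ ρ * Real.log ((y : ℝ) / x) := by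
  obtain ⟨i₀, hi₀⟩ := hI
  have h0 : 0 < m := lt_of_le_of_lt (Nat.zero_le _) i₀.2
  obtain ⟨H₀, h⟩ := Cov.general z m I ρ ⟨i₀, hi₀⟩ hρ fun I' hI' =>
    thmV z (10 * m) I' ρ (by omega) hI' hρ
  refine ⟨H₀, fun H hH => ?_⟩
  obtain ⟨C, h⟩ := h H hH
  refine ⟨C, fun x y hx hxy => h x y hx hxy _ (filter_subset _ _) fun n hn => ?_⟩
  rw [mem_filter] at hn
  obtain ⟨_, G, hG, hc⟩ := hn
  refine ⟨G, code_iff hG, le_trans (le_of_eq ?_) hc⟩
  have e : ∀ h : ℕ, pat z m (n + h) = fun i : Fin m => f z (n + h + i + 1) := by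
    intro h
    funext i
    exact (f_eq z (n + h + i + 1) (by omega)).symm
  simp only [e]

end Pool.Agent.H83.V.Hand
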