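import Pool.Agent.H83.V.Defs

/-!
Theorem V: targets for the sections 2 and 3 of `H83_V.md` (pairs, the top of the tower).
-/

set_option autoImplicit false

open MeasureTheory ProbabilityTheory Filter Topology Finset
open scoped Nat ENNReal

namespace Pool.Agent.H83.V

open Pool.Agent.H24.T2 (Pset)
open Pool.Agent.H67.AG (avgP ul Inv Rt Av SA kap JJ TT InvZ nxt triv tow XN PN TN XX PX TX prX Fac)
open Pool.Agent.H40.AG (QQ dg)
open Pool.Agent.H28.LF (Wd La Cd dm ds)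

/-! ### Section 2: pairs -/

open Classical in
/-- PWV: the pointwise inequality for two words. -/
def T_PWV : Prop := ∀ (q m : ℕ) (I : Finset (Fin m)) (v v' : Fin m → Fin q)
  (B : Set (Fin m → Fin q)), CodeI I B →
  ((I.filter fun i => v i ≠ v' i).card : ℝ) - ((I.filter fun i => v i ≠ v' i).card : ℝ) *
    (((univ.filter fun i : Fin m => v i ≠ v' i).card : ℝ) - 1) ≤
  (if v ∈ B then 1 else 0) + (if v' ∈ B then 1 else 0)

/-- PIRV: the inequality for a pair of processes. -/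
def T_PIRV : Prop := ∀ (Ω : Type) [MeasurableSpace Ω] (P : Measure Ω) [IsProbabilityMeasure P]
  (T : Ω ≃ᵐ Ω) (U : Ultrafilter ℕ) (s : ℕ → ℝ) (q m : ℕ) (I : Finset (Fin m))
  (Bad : ℕ → Set (Fin m → Fin q)) (a a' : Ω → Fin q) (A : Set Ω),
  MeasurePreserving T P P → (U : Filter ℕ) ≤ atTop → (∀ p, s p = 0 ∨ s p = 1) →
  (∀ p, CodeI I (Bad p)) → Measurable a → Measurable a' → MeasurableSet[Inv T 1] A →
  ds U s * (I.card : ℝ) * ∫ ω in A, dm a a' ω ∂P ≤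
    La U s P T a Bad A + La U s P T a' Bad A +
      2 * (I.card : ℝ) * ∑ d ∈ Icc 1 m, Cd U P T (dm a a') A d

/-- PGV: the inequality for a pair of processes whose mismatches are rare. -/
def T_PGV : Prop := ∀ (Ω : Type) [MeasurableSpace Ω] (P : Measure Ω) [IsProbabilityMeasure P]
  (T : Ω ≃ᵐ Ω) (U : Ultrafilter ℕ) (s : ℕ → ℝ) (γ : ℝ) (q m : ℕ) (I : Finset (Fin m))
  (Bad : ℕ → Set (Fin m → Fin q)) (a a' : Ω → Fin q) (A : Set Ω),
  MeasurePreserving T P P → (U : Filter ℕ) ≤ atTop → (∀ p, s p = 0 ∨ s p = 1) → 0 < γ →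
  γ ≤ ds U s → 0 < m → (∀ p, CodeI I (Bad p)) → Measurable a → Measurable a' →
  MeasurableSet[Inv T 1] A →
  (∀ᵐ ω ∂P, ω ∈ A → (P[dm a a' | Inv T 1]) ω ≤ 2 * kp γ / m) →
  7 / 8 * γ * (I.card : ℝ) * ∫ ω in A, dm a a' ω ∂P ≤ La U s P T a Bad A + La U s P T a' Bad A

/-- MB: basic facts on the frequency of the mismatches (from `T_BK`). -/
def T_MB : Prop := ∀ c : Vx, Measurable c.M ∧ (∀ p, c.M (TT c.T p) = c.M p) ∧
  (∀ x y z, 0 ≤ c.M (x, y) ∧ c.M (x, y) ≤ 1 ∧ c.M (x, x) = 0 ∧ c.M (x, y) = c.M (y, x) ∧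
    c.M (x, z) ≤ c.M (x, y) + c.M (y, z)) ∧
  MeasurableSet[Inv (TT c.T) 1] c.Ec ∧
  ∀ (Ω : Type) [MeasurableSpace Ω] (P : Measure Ω) [IsProbabilityMeasure P] (T : Ω ≃ᵐ Ω)
    (g g' : Ω → c.X), MeasurePreserving T P P → Fac P T c.μ c.T g → Fac P T c.μ c.T g' →
    P[dm (fun ω => c.a (g ω)) (fun ω => c.a (g' ω)) | Inv T 1] =ᵐ[P] fun ω => c.M (g ω, g' ω)

/-- NUM: the constants. -/
def T_NUM : Prop := ∀ c : Vx, c.γ ≤ 1 ∧ 0 < c.ulo ∧ 1000 * c.ulo < c.uh ∧ c.uh ≤ 1 / 1000 ∧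
  c.ulo ≤ 1 / 1000000

/-- GAP: the frequency of the mismatches of two points is not in the gap. -/
def T_GAP : Prop := ∀ (c : Vx) (Ω : Type) [MeasurableSpace Ω] (P : Measure Ω)
  [IsProbabilityMeasure P] (T : Ω ≃ᵐ Ω) (g g' : Ω → c.X), MeasurePreserving T P P →
  Fac P T c.μ c.T g → Fac P T c.μ c.T g' →
  ∀ᵐ ω ∂P, ¬ (c.ulo < c.M (g ω, g' ω) ∧ c.M (g ω, g' ω) ≤ c.uh)

/-! ### Section 3: the top of the tower -/

open Classical in
/-- P3V: the bad words for the conditional probabilities over the tower (from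
`Pool.Agent.H24.UG.T_UP3` with `W = 2`, as `T_P3W`). -/
def T_P3V : Prop := ∀ (c : Vx) (J : ℕ), c.m ≤ J + 1 →
  La c.U c.s c.μ c.T c.a c.Bad Set.univ =
    ul c.U fun m => avgP 2 m fun p => c.s p * ∑ v : Fin c.m → Fin c.q,
      if v ∈ c.Bad p then
        ∫ x, ∏ i, c.wt (tow c.μ c.T J) (v i) (c.T^[p * ((i : ℕ) + 1)] x) ∂c.μ else 0

/-- CPV: a coupling of a product measure with itself (finite sums, as `T_CPL`). -/
def T_CPV : Prop := ∀ (q m : ℕ) (I : Finset (Fin m)) (w : Fin m → Fin q → ℝ) (th : ℝ)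
  (B : Set (Fin m → Fin q)) [DecidablePred (· ∈ B)], CodeI I B → 0 ≤ th → th ≤ 1 →
  (∀ i b, 0 ≤ w i b) → (∀ i, ∑ b, w i b = 1) →
  ∑ i ∈ I, th * (1 - ∑ b, w i b ^ 2) -
    ∑ i ∈ I, ∑ j ∈ univ.erase i,
      (th * (1 - ∑ b, w i b ^ 2)) * (th * (1 - ∑ b, w j b ^ 2)) ≤
  2 * ∑ v : Fin m → Fin q, if v ∈ B then ∏ i, w i (v i) else 0

/-- RSV: the inequality for partially resampled words (as `T_RSM`). -/
def T_RSV : Prop := ∀ (c : Vx) (J : ℕ) (th : ℝ), c.m ≤ J + 1 → 0 ≤ th → th ≤ 1 →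
  ds c.U c.s * (c.I.card : ℝ) * ∫ x, th * c.vv (tow c.μ c.T J) x ∂c.μ ≤
    2 * La c.U c.s c.μ c.T c.a c.Bad Set.univ +
      2 * (c.I.card : ℝ) * ∑ d ∈ Icc 1 c.m,
        Cd c.U c.μ c.T (fun x => th * c.vv (tow c.μ c.T J) x) Set.univ d

/-- JVV: the conditional probability of a mismatch and the self-joining (as `T_JV`). -/
def T_JVV : Prop := ∀ (c : Vx) (Z : SA c.X),
  ∫ x, c.vv Z x ∂c.μ = (JJ c.μ Z).real {p | c.a p.1 ≠ c.a p.2}

/-- TOPV: the top of the tower. -/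
def T_TOPV : Prop := ∀ c : Vx, c.CP (tow c.μ c.T c.m)

end Pool.Agent.H83.V
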